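import Pool.Agent.LibHJ57.Half

/-!
# LibHJ57 : row Q2, the clique model from one half of the sample
-/

set_option autoImplicit false
set_option linter.unusedSectionVars false

open scoped Classical

noncomputable section

namespace HD

variable {V : Type*} [Fintype V] [DecidableEq V] {G : SimpleGraph V}

/-- Linking clique models: meeting pieces for every two bundles, `n` switch pieces, one thin class for every
commodity. -/
theorem half_link {r τ ν ℓ y n z0 k q3 q : ℕ} (hr : 1 ≤ r) {X B A3 : Finset V}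
    (T : Fin r × Fin r → Finset V) (W : ((Fin r × Fin r) ⊕ Fin n) → Finset V)
    (hWX : ∀ p, W p ⊆ X) (hWB : ∀ p, W p ⊆ B) (hAX : A3 ⊆ X) (hTX : ∀ κ, T κ ⊆ X)
    (hWm : ∀ p, Model G (W p) ν) (hWd : ∀ p p', p ≠ p' → Disjoint (W p) (W p'))
    (hWA : ∀ p, Disjoint A3 (W p)) (hWT : ∀ κ p, Disjoint (T κ) (W p)) (hAT : ∀ κ, Disjoint A3 (T κ))
    (hTT : ∀ κ κ', κ ≠ κ' → Disjoint (T κ) (T κ'))
    (hL3 : Lk G A3 B z0 k q3) (hLT : ∀ κ, Lk G (T κ) B z0 k q) (hq3 : 1 ≤ q3) (hq1 : 1 ≤ q)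
    (h0 : z0 ≤ ν) (h1 : z0 ≤ y) (h2 : z0 ≤ n * ℓ) (h3 : n * ℓ ≤ k) (h4 : q3 * (4 * τ) ≤ ν)
    (h5 : q3 * (2 * r ^ 2 * τ) ≤ n * ℓ) (h6 : q * ℓ ≤ y) (h7 : ℓ + 2 * (r * r) * y ≤ ν) (h8 : n * y ≤ k) :
    Model G X (r * τ) := by
  choose f0 hf1 hf2 using hWm
  -- the model sets and the roots, indexed by all roots
  obtain ⟨f, hf⟩ : ∃ f : ((Fin r × Fin r) ⊕ Fin n) × Fin ν → Finset V, ∀ p a, f (p, a) = f0 p a :=
    ⟨fun ρ => f0 ρ.1 ρ.2, fun _ _ => rfl⟩
  have hfW : ∀ p a, f (p, a) ⊆ W p := fun p a => by rw [hf]; exact (hf1 p a).1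
  have hfc : ∀ ρ, Conn G (f ρ) := by
    rintro ⟨p, a⟩
    rw [hf]
    exact (hf1 p a).2
  have hfT : ∀ p a b, a ≠ b → Touch G (f (p, a)) (f (p, b)) := by
    intro p a b hab
    rw [hf, hf]
    exact (hf2 p a b hab).2
  have hxex : ∀ ρ, ∃ v, v ∈ f ρ := fun ρ => (hfc ρ).nonempty
  choose x hx using hxex
  have hxB : ∀ ρ, x ρ ∈ B := by
    rintro ⟨p, a⟩
    exact hWB p (hfW p a (hx (p, a)))
  have hd : ∀ ρ ρ', ρ ≠ ρ' → Disjoint (f ρ) (f ρ') := by
    rintro ⟨p, a⟩ ⟨p', a'⟩ hne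
    by_cases hp : p = p'
    · subst hp
      have ha : a ≠ a' := fun h => hne (by rw [h])
      rw [hf, hf]
      exact (hf2 p a a' ha).1
    · exact (hWd p p' hp).mono (hfW p a) (hfW p' a')
  have hAf : ∀ ρ, Disjoint A3 (f ρ) := by
    rintro ⟨p, a⟩
    exact (hWA p).mono (Finset.Subset.refl _) (hfW p a)
  have hTf : ∀ κ ρ, Disjoint (T κ) (f ρ) := by
    rintro κ ⟨p, a⟩
    exact (hWT κ p).mono (Finset.Subset.refl _) (hfW p a)
  have hfX : ∀ ρ, f ρ ⊆ X := by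
    rintro ⟨p, a⟩
    exact (hfW p a).trans (hWX p)
  have hℓν : ℓ ≤ ν := (Nat.le_add_right _ _).trans h7
  obtain ⟨φ, α, E, hφ, hE, hEd⟩ := half_step1 (G := G) (τ := τ) x f (fun ρ => ⟨hx ρ, hfc ρ⟩) hxB hd hAf hL3
    hℓν h0 h2 h3 h4 h5 hq3
  -- the number of the commodity
  obtain ⟨c, hci, hcr⟩ : ∃ c : Fin r × Fin r → ℕ, Function.Injective c ∧ ∀ κ, c κ + 1 ≤ r * r := by
    refine ⟨fun κ => (finProdFinEquiv κ : ℕ), ?_, ?_⟩
    · intro a b hab
      exact finProdFinEquiv.injective (Fin.ext hab)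
    · intro κ
      exact (finProdFinEquiv κ).2
  have hends : ∀ (i j : Fin r) (b : Bool) (p : Fin n),
      (Finset.univ.filter (fun s : Fin τ => (φ (i, j, s, b)).1 = p)).card ≤ ℓ := by
    intro i j b p
    have h9 : (Finset.univ.filter (fun s : Fin τ => (φ (i, j, s, b)).1 = p)).card ≤
        (Finset.univ : Finset (Fin ℓ)).card := by
      apply Finset.card_le_card_of_injOn (fun s => (φ (i, j, s, b)).2) (fun _ _ => Finset.mem_univ _)
      intro s hs s' hs' hss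
      have h10 := (Finset.mem_filter.1 (Finset.mem_coe.1 hs)).2
      have h11 := (Finset.mem_filter.1 (Finset.mem_coe.1 hs')).2
      have h12 : φ (i, j, s, b) = φ (i, j, s', b) := Prod.ext (h10.trans h11.symm) hss
      have h13 := hφ h12
      simp only [Prod.mk.injEq] at h13
      exact h13.2.2.1
    rwa [Finset.card_univ, Fintype.card_fin] at h9
  have key : ∀ i j : Fin r, ∃ (σ : Fin τ → Fin τ) (L : Fin τ → Finset V), ∀ j' : Fin r, (j' : ℕ) = j + 1 →
      Function.Injective σ ∧ (∀ s, L s ⊆ X ∧ Conn G (L s) ∧ Touch G (E (i, j, s, true)) (L s) ∧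
        Touch G (L s) (E (i, j', σ s, false)) ∧
        ∀ v ∈ L s, v ∈ T (i, j) ∨ ∃ p a, v ∈ f (Sum.inr p, a) ∧ ℓ + 2 * (c (i, j) * y) ≤ (a : ℕ) ∧
          (a : ℕ) < ℓ + 2 * (c (i, j) * y) + 2 * y) ∧
      ∀ s s', s ≠ s' → Disjoint (L s) (L s') := by
    intro i j
    by_cases hj : (j : ℕ) + 1 < r
    · have hcy : ℓ + 2 * (c (i, j) * y) + 2 * y ≤ ν := by
        refine le_trans ?_ h7
        have h9 : (c (i, j) + 1) * y ≤ r * r * y := Nat.mul_le_mul_right _ (hcr _)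
        have h10 : 2 * (r * r) * y = 2 * (r * r * y) := by ring
        rw [Nat.add_mul, Nat.one_mul] at h9
        omega
      obtain ⟨σ, α2, β2, L, hσ, hL, hLd⟩ := half_step2 (G := G) (τ := τ) (ℓ := ℓ) (y := y) x f
        (fun ρ => ⟨hx ρ, hfc ρ⟩) hxB hd
        (hTf (i, j)) (hLT (i, j)) h1 h8 h6 hq1 hcy (fun s => (φ (i, j, s, true)).1)
        (fun s => (φ (i, ⟨j + 1, hj⟩, s, false)).1) (hends i j true) (hends i ⟨j + 1, hj⟩ false)
      refine ⟨σ, L, ?_⟩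
      intro j' hj'
      have hjj : j' = ⟨j + 1, hj⟩ := Fin.ext hj'
      subst hjj
      refine ⟨hσ, ?_, hLd⟩
      intro s
      obtain ⟨g1, g2, g3, g4, g5, g6⟩ := hL s
      refine ⟨?_, g3, ?_, ?_, g6⟩
      · intro v hv
        rcases g6 v hv with h9 | ⟨p, a, h9, _⟩
        · exact hTX _ h9
        · exact hfX _ h9
      · refine (hfT _ _ _ ?_).mono (hE (i, j, s, true)).2.1 g4
        intro h9
        have h10 := congrArg Fin.val h9
        rw [Fin.val_castLE] at h10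
        have h11 := (φ (i, j, s, true)).2.2
        omega
      · refine (hfT _ _ _ ?_).mono g5 (hE (i, ⟨j + 1, hj⟩, σ s, false)).2.1
        intro h9
        have h10 := congrArg Fin.val h9
        rw [Fin.val_castLE] at h10
        have h11 := (φ (i, ⟨j + 1, hj⟩, σ s, false)).2.2
        omega
    · refine ⟨id, fun _ => ∅, ?_⟩
      intro j' hj'
      exfalso
      have := j'.2
      omega
  choose π L hL using key
  have hEX : ∀ q, E q ⊆ X := by
    intro q v hv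
    rcases (hE q).2.2.2 v hv with h9 | ⟨p, a, h9⟩ | ⟨p, a, h9, _⟩
    · exact hAX h9
    · exact hfX _ h9
    · exact hfX _ h9
  -- `E q` and `L i j s` avoid each other
  have hEL : ∀ q (i j j' : Fin r) s, (j' : ℕ) = j + 1 → Disjoint (E q) (L i j s) := by
    intro q i j j' s hj'
    rw [Finset.disjoint_left]
    intro v hv hv'
    have hAf' := fun ρ (h9 : v ∈ A3) (h10 : v ∈ f ρ) => Finset.disjoint_left.1 (hAf ρ) h9 h10
    have hTf' := fun κ ρ (h9 : v ∈ T κ) (h10 : v ∈ f ρ) => Finset.disjoint_left.1 (hTf κ ρ) h9 h10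
    have hff' : ∀ ρ ρ', v ∈ f ρ → v ∈ f ρ' → ρ = ρ' := by
      intro ρ ρ' h9 h10
      by_contra hne
      exact Finset.disjoint_left.1 (hd ρ ρ' hne) h9 h10
    rcases ((hL i j j' hj').2.1 s).2.2.2.2 v hv' with h9 | ⟨p, a, h9, h10, _⟩
    · rcases (hE q).2.2.2 v hv with h11 | ⟨p', a', h11⟩ | ⟨p', a', h11, _⟩
      · exact Finset.disjoint_left.1 (hAT _) h11 h9
      · exact hTf' _ _ h9 h11
      · exact hTf' _ _ h9 h11
    · rcases (hE q).2.2.2 v hv with h11 | ⟨p', a', h11⟩ | ⟨p', a', h11, h12⟩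
      · exact hAf' _ h11 h9
      · have h13 := hff' _ _ h9 h11
        simp only [Prod.mk.injEq] at h13
        exact absurd h13.1 (by simp)
      · have h13 := hff' _ _ h9 h11
        simp only [Prod.mk.injEq] at h13
        have h14 := h13.2
        subst h14
        omega
  apply chain_model hr (fun i j s => E (i, j, s, false) ∪ E (i, j, s, true)) L π
  · intro i j j' hj'
    exact (hL i j j' hj').1
  · intro i j s
    refine ⟨Finset.union_subset (hEX _) (hEX _), ?_⟩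
    have h9 : α (i, j, s, false) ≠ α (i, j, s, true) := by
      intro h9
      have h10 := (hE (i, j, s, false)).1
      have h11 := (hE (i, j, s, true)).1
      simp only at h10 h11
      rw [h9] at h10
      have h12 := hEd (i, j, s, false) (i, j, s, true) (by simp)
      exact Finset.disjoint_left.1 h12 (h10 (hx _)) (h11 (hx _))
    exact (hE _).2.2.1.union_touch (hE _).2.2.1 ((hfT _ _ _ h9).mono (hE (i, j, s, false)).1 (hE (i, j, s, true)).1)
  · intro i j j' s hj'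
    obtain ⟨g1, g2, g3, g4, _⟩ := (hL i j j' hj').2.1 s
    exact ⟨g1, g2, g3.mono Finset.subset_union_right (Finset.Subset.refl _),
      g4.mono (Finset.Subset.refl _) Finset.subset_union_left⟩
  · intro i j s i' j' s' hne
    have h9 : ∀ b b' : Bool, Disjoint (E (i, j, s, b)) (E (i', j', s', b')) := by
      intro b b'
      apply hEd
      intro h10
      simp only [Prod.mk.injEq] at h10
      exact hne (by rw [h10.1, h10.2.1, h10.2.2.1])
    rw [Finset.disjoint_union_left, Finset.disjoint_union_right, Finset.disjoint_union_right]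
    exact ⟨⟨h9 _ _, h9 _ _⟩, ⟨h9 _ _, h9 _ _⟩⟩
  · intro i j j1 s i' j' j1' s' hj hj' hne
    by_cases h9 : (i, j) = (i', j')
    · simp only [Prod.mk.injEq] at h9
      obtain ⟨h10, h11⟩ := h9
      subst h10
      subst h11
      exact (hL i j j1 hj).2.2 s s' (fun h10 => hne (by rw [h10]))
    · rw [Finset.disjoint_left]
      intro v hv hv'
      have hff' : ∀ ρ ρ', v ∈ f ρ → v ∈ f ρ' → ρ = ρ' := by
        intro ρ ρ' h9 h10
        by_contra hne
        exact Finset.disjoint_left.1 (hd ρ ρ' hne) h9 h10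
      rcases ((hL i j j1 hj).2.1 s).2.2.2.2 v hv with h10 | ⟨p, a, h10, h11, h12⟩ <;>
        rcases ((hL i' j' j1' hj').2.1 s').2.2.2.2 v hv' with h13 | ⟨p', a', h13, h14, h15⟩
      · exact Finset.disjoint_left.1 (hTT _ _ h9) h10 h13
      · exact Finset.disjoint_left.1 (hTf _ _) h10 h13
      · exact Finset.disjoint_left.1 (hTf _ _) h13 h10
      · have h16 := hff' _ _ h10 h13
        simp only [Prod.mk.injEq] at h16
        have h17 := h16.2
        subst h17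
        rcases Nat.lt_or_ge (c (i, j)) (c (i', j')) with h18 | h18
        · have h19 : (c (i, j) + 1) * y ≤ c (i', j') * y := Nat.mul_le_mul_right _ h18
          rw [Nat.add_mul, Nat.one_mul] at h19
          omega
        · have h18' : c (i', j') < c (i, j) := by
            rcases Nat.lt_or_ge (c (i', j')) (c (i, j)) with h20 | h20
            · exact h20
            · exact absurd (hci (le_antisymm h20 h18)) h9
          have h19 : (c (i', j') + 1) * y ≤ c (i, j) * y := Nat.mul_le_mul_right _ h18'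
          rw [Nat.add_mul, Nat.one_mul] at h19
          omega
  · intro i j s i' j' j1' s' hj'
    rw [Finset.disjoint_union_left]
    exact ⟨hEL _ i' j' j1' s' hj', hEL _ i' j' j1' s' hj'⟩
  · intro i i' s s' hne
    have h9 := (hE (i, i', s, false)).1
    have h10 := (hE (i', i, s', false)).1
    simp only at h9 h10
    rw [mu_comm i' i] at h10
    have h11 : α (i, i', s, false) ≠ α (i', i, s', false) := by
      intro h11
      rw [h11] at h9
      have h12 : (i, i', s, false) ≠ (i', i, s', false) := by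
        intro h13
        simp only [Prod.mk.injEq] at h13
        rcases hne with h14 | h14
        · exact h14 h13.1
        · exact h14 h13.2.2.1
      exact Finset.disjoint_left.1 (hEd _ _ h12) (h9 (hx _)) (h10 (hx _))
    exact (hfT _ _ _ h11).mono (h9.trans Finset.subset_union_left) (h10.trans Finset.subset_union_left)

/-- Q2: the pieces of one half of the sample give a clique model. -/
theorem bad_half {U H B A A3 : Finset V} {t r τ ℓ k c0 : ℕ} (T : Fin (r ^ 2) → Finset V) (hr : 2 ≤ r)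
    (htr : t ≤ r * τ) (hτ : r ^ 6 ≤ τ) (hℓ : ℓ = τ / r ^ 6) (hk : 2 ^ 37 * r ^ 8 * τ ≤ k) (hHU : H ⊆ U)
    (hBH : B ⊆ H) (hA : A ⊆ H)
    (hA3 : A3 ⊆ H \ A) (hT : ∀ κ, T κ ⊆ H \ A) (hAT : ∀ κ, Disjoint A3 (T κ))
    (hTT : ∀ κ κ', κ ≠ κ' → Disjoint (T κ) (T κ'))
    (hL3 : Lk G A3 B (2 ^ 16 * r ^ 4 * ℓ) k (2 ^ 16))
    (hLT : ∀ κ, Lk G (T κ) B (2 ^ 16 * r ^ 4 * ℓ) k (2 ^ 16 * (r ^ 2) ^ 2))
    (hc : ∀ A ⊆ U, ¬ Model G A (2 ^ 18 * τ) → Col G A c0) (hmod : ¬ Model G U t)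
    (W : Fin (2 ^ 19 * r ^ 8) → Finset V) (hW : ∀ i, W i ⊆ A ∩ B ∧ ¬ Col G (W i) c0)
    (hWd : ∀ i j, i ≠ j → Disjoint (W i) (W j)) : False := by
  have hr0 : 0 < r := by omega
  have hr6 : 0 < r ^ 6 := Nat.pow_pos hr0
  have hℓ1 : ℓ * r ^ 6 ≤ τ := by
    rw [hℓ]
    exact Nat.div_mul_le_self τ (r ^ 6)
  have hℓ0 : 1 ≤ ℓ := by
    rw [hℓ]
    exact (Nat.le_div_iff_mul_le hr6).2 (by omega)
  have hℓ2 : τ ≤ 2 * (ℓ * r ^ 6) := by
    have h1 : τ < τ / r ^ 6 * r ^ 6 + r ^ 6 := Nat.lt_div_mul_add hr6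
    rw [← hℓ] at h1
    have h2 : r ^ 6 ≤ ℓ * r ^ 6 := Nat.le_mul_of_pos_left _ hℓ0
    omega
  have hr4 : 1 ≤ r ^ 4 := Nat.pow_pos hr0
  have hr2 : 1 ≤ r ^ 2 := Nat.pow_pos hr0
  have hℓτ : ℓ ≤ τ := (Nat.le_mul_of_pos_right _ hr6).trans hℓ1
  have h46 : r ^ 4 ≤ r ^ 6 := Nat.pow_le_pow_right hr0 (by norm_num)
  have h4ℓ : r ^ 4 * ℓ ≤ τ := by
    calc r ^ 4 * ℓ ≤ r ^ 6 * ℓ := Nat.mul_le_mul_right _ h46
      _ = ℓ * r ^ 6 := Nat.mul_comm _ _
      _ ≤ τ := hℓ1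
  obtain ⟨T', hT'⟩ : ∃ T' : Fin r × Fin r → Finset V, ∀ κ, T' κ = T (Fin.cast (by ring) (finProdFinEquiv κ)) :=
    ⟨fun κ => T (Fin.cast (by ring) (finProdFinEquiv κ)), fun _ => rfl⟩
  have hemb : Fintype.card ((Fin r × Fin r) ⊕ Fin (2 ^ 18 * r ^ 8)) ≤ Fintype.card (Fin (2 ^ 19 * r ^ 8)) := by
    rw [Fintype.card_sum, Fintype.card_prod, Fintype.card_fin, Fintype.card_fin, Fintype.card_fin]
    have h1 : r * r ≤ r ^ 8 := by
      calc r * r = r ^ 2 := (sq r).symm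
        _ ≤ r ^ 8 := Nat.pow_le_pow_right hr0 (by norm_num)
    have h2 : 1 ≤ r ^ 8 := Nat.pow_pos hr0
    omega
  obtain ⟨em⟩ := Function.Embedding.nonempty_of_card_le hemb
  have hAU : A ⊆ U := hA.trans hHU
  have hWA : ∀ p, W (em p) ⊆ A := fun p => (hW (em p)).1.trans Finset.inter_subset_left
  have hWB : ∀ p, W (em p) ⊆ B := fun p => (hW (em p)).1.trans Finset.inter_subset_right
  have hdis : ∀ C : Finset V, C ⊆ H \ A → ∀ p, Disjoint C (W (em p)) := by
    intro C hC p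
    rw [Finset.disjoint_left]
    intro v hv hv'
    exact (Finset.mem_sdiff.1 (hC hv)).2 (hWA p hv')
  have hfin : Model G U (r * τ) := by
    refine half_link (ν := 2 ^ 18 * τ) (ℓ := ℓ) (y := 2 ^ 16 * r ^ 4 * ℓ) (n := 2 ^ 18 * r ^ 8)
      (z0 := 2 ^ 16 * r ^ 4 * ℓ) (k := k) (q3 := 2 ^ 16) (q := 2 ^ 16 * (r ^ 2) ^ 2) (B := B) (A3 := A3)
      (by omega) T' (fun p => W (em p)) (fun p => (hWA p).trans hAU) hWB
      (hA3.trans (Finset.sdiff_subset.trans hHU)) (fun κ => ?_) ?_ ?_ (hdis A3 hA3) (fun κ => ?_) (fun κ => ?_)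
      ?_ hL3 (fun κ => ?_) (by norm_num) ?_ ?_ le_rfl ?_ ?_ ?_ ?_ ?_ ?_ ?_
    · rw [hT']
      exact (hT _).trans (Finset.sdiff_subset.trans hHU)
    · intro p
      by_contra hno
      exact (hW (em p)).2 (hc _ ((hWA p).trans hAU) hno)
    · intro p p' hpp
      exact hWd _ _ (fun h => hpp (em.injective h))
    · rw [hT']
      exact hdis _ (hT _)
    · rw [hT']
      exact hAT _
    · intro κ κ' hκ
      rw [hT', hT']
      apply hTT
      intro h
      apply hκ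
      exact finProdFinEquiv.injective (Fin.cast_injective _ h)
    · rw [hT']
      exact hLT _
    · have h1 : 1 ≤ (r ^ 2) ^ 2 := Nat.pow_pos hr2
      omega
    · have h1 : 2 ^ 16 * r ^ 4 * ℓ = 2 ^ 16 * (r ^ 4 * ℓ) := by ring
      rw [h1]
      omega
    · have h1 : r ^ 4 * ℓ ≤ r ^ 8 * ℓ :=
        Nat.mul_le_mul_right _ (Nat.pow_le_pow_right hr0 (by norm_num))
      have h2 : 2 ^ 16 * r ^ 4 * ℓ = 2 ^ 16 * (r ^ 4 * ℓ) := by ring
      have h3 : 2 ^ 18 * r ^ 8 * ℓ = 2 ^ 18 * (r ^ 8 * ℓ) := by ring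
      rw [h2, h3]
      omega
    · refine le_trans ?_ hk
      have h1 : r ^ 8 * ℓ ≤ r ^ 8 * τ := Nat.mul_le_mul_left _ hℓτ
      have h2 : 2 ^ 37 * r ^ 8 * τ = 2 ^ 37 * (r ^ 8 * τ) := by ring
      have h3 : 2 ^ 18 * r ^ 8 * ℓ = 2 ^ 18 * (r ^ 8 * ℓ) := by ring
      rw [h2, h3]
      omega
    · omega
    · have h1 : r ^ 2 * τ ≤ r ^ 2 * (2 * (ℓ * r ^ 6)) := Nat.mul_le_mul_left _ hℓ2
      have h2 : 2 ^ 16 * (2 * r ^ 2 * τ) = 2 ^ 17 * (r ^ 2 * τ) := by ring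
      have h3 : 2 ^ 18 * r ^ 8 * ℓ = 2 ^ 17 * (r ^ 2 * (2 * (ℓ * r ^ 6))) := by ring
      rw [h2, h3]
      exact Nat.mul_le_mul_left _ h1
    · exact le_of_eq (by ring)
    · have h1 : 2 * (r * r) * (2 ^ 16 * r ^ 4 * ℓ) = 2 ^ 17 * (ℓ * r ^ 6) := by ring
      rw [h1]
      omega
    · refine le_trans ?_ hk
      have h1 : 2 ^ 18 * r ^ 8 * (2 ^ 16 * r ^ 4 * ℓ) = 2 ^ 34 * (r ^ 6 * (ℓ * r ^ 6)) := by ring
      have h2 : r ^ 6 * (ℓ * r ^ 6) ≤ r ^ 8 * τ :=
        Nat.mul_le_mul (Nat.pow_le_pow_right hr0 (by norm_num)) hℓ1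
      have h3 : 2 ^ 37 * r ^ 8 * τ = 2 ^ 37 * (r ^ 8 * τ) := by ring
      rw [h1, h3]
      omega
  exact hmod (hfin.mono (Finset.Subset.refl _) htr)

end HD
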