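import Pool.Agent.LibHL.C5

/-!
# LibHJ57 : all graphs, from a linear bound for small graphs
-/

set_option autoImplicit false
set_option linter.unusedSectionVars false

open scoped Classical

noncomputable section

namespace HD

/-- A small set of large chromatic number in a highly connected set gives a rooted clique model, provided its subsets
without a `K_τ` model are `c0`-colourable. -/
theorem rooted_gen {V : Type*} [Fintype V] [DecidableEq V] {G : SimpleGraph V}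
    {M X R : Finset V} {τ c c0 : ℕ} (hτ : 1 ≤ τ) (hM : KC G M τ) (hXM : X ⊆ M) (hRM : R ⊆ M) (hRc : R.card = τ)
    (hXτ : X.card ^ 2 ≤ τ ^ 3) (hs : ∀ Y ⊆ X, ¬ Model G Y τ → Col G Y c0)
    (hc1 : 3 * c0 + τ + 4 * (2 ^ 28 * τ) ≤ c) (hc2 : 6 * (2 ^ 28 * τ) ≤ c) (hcol : ¬ Col G X c) :
    RModel G M R := by
  -- a highly connected subset of the same chromatic number
  obtain ⟨X', hX'X, hX'K, hX'c⟩ := gn0 (k := 2 ^ 28 * τ) (by omega) hc2 hcol
  have hX'card : τ ≤ X'.card := by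
    have := hX'K.1
    omega
  have hX'M : X' ⊆ M := hX'X.trans hXM
  -- linkage from R to X'
  obtain ⟨F, hF1, hF2⟩ := kc_menger hM hRM hX'M (n := τ) (by omega) hRc.ge hX'card
  have hrex : ∀ i, ∃ v, v ∈ F i ∩ R := fun i => (hF1 i).2.2.1
  choose r hr using hrex
  have hrF : ∀ i, r i ∈ F i := fun i => (Finset.mem_inter.1 (hr i)).1
  have hrR : ∀ i, r i ∈ R := fun i => (Finset.mem_inter.1 (hr i)).2
  have hrinj : Function.Injective r := by
    intro i j hij
    by_contra hne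
    exact Finset.disjoint_left.1 (hF2 i j hne) (hrF i) (hij ▸ hrF j)
  have hrimg : Finset.univ.image r = R := by
    apply Finset.eq_of_subset_of_card_le
    · intro z hz
      obtain ⟨i, _, rfl⟩ := Finset.mem_image.1 hz
      exact hrR i
    · rw [Finset.card_image_of_injective _ hrinj, Finset.card_univ, Fintype.card_fin, hRc]
  have hidx : ∀ p : V, ∃ i : Fin τ, p ∈ R → r i = p := by
    intro p
    by_cases hp : p ∈ R
    · rw [← hrimg] at hp
      obtain ⟨i, _, hi⟩ := Finset.mem_image.1 hp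
      exact ⟨i, fun _ => hi⟩
    · exact ⟨⟨0, hτ⟩, fun h => absurd h hp⟩
  choose idx hidx using hidx
  -- trimming
  have htrim : ∀ i, ∃ F' : Finset V, ∃ x : V, F' ⊆ F i ∧ Conn G F' ∧ r i ∈ F' ∧ F' ∩ X' = {x} := by
    intro i
    obtain ⟨F', h1, h2, h3, h4, _⟩ := trim0 (hF1 i).2.1 (hrF i) (hF1 i).2.2.2
    obtain ⟨x, hx⟩ := Finset.card_eq_one.1 h4
    exact ⟨F', x, h1, h2, h3, hx⟩
  choose F' x hF'1 hF'2 hF'3 hF'4 using htrim
  have hxF' : ∀ i, x i ∈ F' i ∧ x i ∈ X' := by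
    intro i
    have h1 : x i ∈ F' i ∩ X' := by
      rw [hF'4 i]
      exact Finset.mem_singleton_self _
    exact Finset.mem_inter.1 h1
  have hF'dis : ∀ i j, i ≠ j → Disjoint (F' i) (F' j) := fun i j hij =>
    (hF2 i j hij).mono (hF'1 i) (hF'1 j)
  have hxinj : Function.Injective x := by
    intro i j hij
    by_contra hne
    exact Finset.disjoint_left.1 (hF'dis i j hne) (hxF' i).1 (hij ▸ (hxF' j).1)
  obtain ⟨T, hT⟩ : ∃ T : Finset V, T = Finset.univ.image x := ⟨_, rfl⟩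
  have hxT : ∀ i, x i ∈ T := by
    intro i
    rw [hT]
    exact Finset.mem_image_of_mem _ (Finset.mem_univ i)
  have hTcard : T.card ≤ τ := by
    rw [hT]
    refine Finset.card_image_le.trans ?_
    rw [Finset.card_univ, Fintype.card_fin]
  have hTX' : T ⊆ X' := by
    intro v hv
    rw [hT] at hv
    obtain ⟨i, _, rfl⟩ := Finset.mem_image.1 hv
    exact (hxF' i).2
  -- the gadget
  have hX'sq : X'.card ≤ (2 ^ 13 * τ) ^ 2 := by
    have h1 : X'.card ≤ X.card := Finset.card_le_card hX'X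
    have h2 : X'.card ^ 2 ≤ τ ^ 3 := (Nat.pow_le_pow_left h1 2).trans hXτ
    have h3 : τ ^ 3 ≤ (τ ^ 2) ^ 2 := by
      rw [← pow_mul]
      exact Nat.pow_le_pow_right hτ (by norm_num)
    have h4 : X'.card ≤ τ ^ 2 := by
      by_contra hcon
      push Not at hcon
      have h5 : (τ ^ 2) ^ 2 < X'.card ^ 2 := Nat.pow_lt_pow_left hcon (by norm_num)
      omega
    calc X'.card ≤ τ ^ 2 := h4
      _ ≤ (2 ^ 13 * τ) ^ 2 := Nat.pow_le_pow_left (by omega) 2
  have hKCH : KC G X' (2 ^ 15 * (2 ^ 13 * τ)) := by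
    have h1 : 2 ^ 15 * (2 ^ 13 * τ) = 2 ^ 28 * τ := by ring
    rw [h1]
    exact hX'K
  obtain ⟨A, hA1, hA2, hA3, -, hA5⟩ := gadget (m := 2 * τ) (k := 2 ^ 13 * τ) (by omega) (by omega)
    hKCH hX'sq hTX' (by omega)
  -- a part of large chromatic number
  have hj : ∃ j, ¬ Col G (A j) c0 := by
    by_contra hcon
    push Not at hcon
    have h1 : Col G (A 0 ∪ A 1 ∪ A 2 ∪ T) (c0 + c0 + c0 + τ) :=
      (((hcon 0).union (hcon 1)).union (hcon 2)).union ((col_card T).mono (Finset.Subset.refl _) hTcard)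
    apply hX'c
    refine h1.mono ?_ (by omega)
    intro v hv
    by_cases hvT : v ∈ T
    · exact Finset.mem_union_right _ hvT
    · exact Finset.mem_union_left _ (hA3 (Finset.mem_sdiff.2 ⟨hv, hvT⟩))
  obtain ⟨j, hj⟩ := hj
  have hAjX' : A j ⊆ X' := (hA1 j).trans Finset.sdiff_subset
  have hAjT : ∀ v ∈ A j, v ∉ T := fun v hv => (Finset.mem_sdiff.1 (hA1 j hv)).2
  have hmod : Model G (A j) τ := by
    by_contra hmod
    apply hj
    exact hs (A j) (hAjX'.trans hX'X) hmod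
  obtain ⟨f0, hf1, hf2⟩ := hmod
  have hyex : ∀ i, ∃ v, v ∈ f0 i := fun i => (hf1 i).2.nonempty
  choose y hy using hyex
  have hyA : ∀ i, y i ∈ A j := fun i => (hf1 i).1 (hy i)
  have hyinj : Function.Injective y := by
    intro i i' hii
    by_contra hne
    exact Finset.disjoint_left.1 (hf2 i i' hne).1 (hy i) (hii ▸ hy i')
  -- linking through the gadget
  obtain ⟨W, hW1, hW2, hW3⟩ := hA5 j (Fin τ ⊕ Fin τ) (Fin τ) (Sum.elim x y) (Sum.elim id id)
    (by rw [Fintype.card_sum, Fintype.card_fin]; omega)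
    (by
      rintro (a | a) (b | b) hab
      · exact congrArg _ (hxinj hab)
      · have h1 : x a = y b := hab
        exact absurd (h1 ▸ hxT a) (hAjT _ (hyA b))
      · have h1 : y a = x b := hab
        exact absurd (h1 ▸ hxT b) (hAjT _ (hyA a))
      · exact congrArg _ (hyinj hab))
    (by
      rintro (a | a)
      · exact Finset.mem_union_left _ (hxT a)
      · exact Finset.mem_union_right _ (hyA a))
  have hWx : ∀ i, x i ∈ W i := fun i => (hW2 (Sum.inl i)).1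
  have hWy : ∀ i, y i ∈ W i := fun i => (hW2 (Sum.inr i)).1
  have hWc : ∀ i, Conn G (W i) := fun i => (hW2 (Sum.inl i)).2
  have hWX' : ∀ i, W i ⊆ X' := by
    intro i v hv
    rcases hW1 i v hv with h1 | ⟨a, _, h2⟩
    · exact (Finset.mem_sdiff.1 h1).1
    · rcases a with a | a
      · have h3 : x a = v := h2
        rw [← h3]
        exact (hxF' a).2
      · have h3 : y a = v := h2
        rw [← h3]
        exact hAjX' (hyA a)
  have hWA : ∀ i, ∀ v ∈ W i, v ∈ A j → v = y i := by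
    intro i v hv hvA
    rcases hW1 i v hv with h1 | ⟨a, h2, h3⟩
    · exact absurd (Finset.mem_union_right _ hvA) (Finset.mem_sdiff.1 h1).2
    · rcases a with a | a
      · have h4 : x a = v := h3
        exact absurd (h4 ▸ hxT a) (hAjT v hvA)
      · have h4 : y a = v := h3
        have h5 : a = i := h2
        rw [← h4, h5]
  -- the separate disjointness facts
  have dFW : ∀ i i', i ≠ i' → Disjoint (F' i) (W i') := by
    intro i i' hne
    rw [Finset.disjoint_left]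
    intro v hv hv'
    have h1 : v ∈ F' i ∩ X' := Finset.mem_inter.2 ⟨hv, hWX' i' hv'⟩
    rw [hF'4 i, Finset.mem_singleton] at h1
    rw [h1] at hv'
    exact Finset.disjoint_left.1 (hW3 i i' hne) (hWx i) hv'
  have dFf : ∀ i i', Disjoint (F' i) (f0 i') := by
    intro i i'
    rw [Finset.disjoint_left]
    intro v hv hv'
    have h2 := (hf1 i').1 hv'
    have h1 : v ∈ F' i ∩ X' := Finset.mem_inter.2 ⟨hv, hAjX' h2⟩
    rw [hF'4 i, Finset.mem_singleton] at h1
    exact hAjT v h2 (h1 ▸ hxT i)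
  have dWf : ∀ i i', i ≠ i' → Disjoint (W i) (f0 i') := by
    intro i i' hne
    rw [Finset.disjoint_left]
    intro v hv hv'
    have h1 := hWA i v hv ((hf1 i').1 hv')
    rw [h1] at hv'
    exact Finset.disjoint_left.1 (hf2 i i' hne).1 (hy i) hv'
  refine ⟨fun p => F' (idx p) ∪ W (idx p) ∪ f0 (idx p), ?_, ?_⟩
  · intro p hp
    refine ⟨?_, ?_, ?_⟩
    · apply Finset.mem_union_left
      apply Finset.mem_union_left
      have h1 := hF'3 (idx p)
      rw [hidx p hp] at h1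
      exact h1
    · apply Finset.union_subset
      · apply Finset.union_subset
        · exact (hF'1 _).trans (hF1 _).1
        · exact (hWX' _).trans hX'M
      · exact (hf1 _).1.trans (hAjX'.trans hX'M)
    · have h1 : Conn G (F' (idx p) ∪ W (idx p)) :=
        (hF'2 _).union_mem (hWc _) (hxF' _).1 (hWx _)
      exact h1.union_mem (hf1 _).2 (Finset.mem_union_right _ (hWy _)) (hy _)
  · intro p hp q hq hpq
    have hne : idx p ≠ idx q := by
      intro h
      apply hpq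
      rw [← hidx p hp, ← hidx q hq, h]
    constructor
    · rw [Finset.disjoint_union_left, Finset.disjoint_union_left, Finset.disjoint_union_right,
        Finset.disjoint_union_right, Finset.disjoint_union_right, Finset.disjoint_union_right,
        Finset.disjoint_union_right, Finset.disjoint_union_right]
      exact ⟨⟨⟨⟨hF'dis _ _ hne, dFW _ _ hne⟩, dFf _ _⟩,
        ⟨⟨(dFW _ _ hne.symm).symm, hW3 _ _ hne⟩, dWf _ _ hne⟩⟩,
        ⟨⟨(dFf _ _).symm, (dWf _ _ hne.symm).symm⟩, (hf2 _ _ hne).1⟩⟩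
    · exact (hf2 _ _ hne).2.mono Finset.subset_union_right Finset.subset_union_right


theorem HJ_num {t ℓ : ℕ} (ht : 1 ≤ t) (hL : (2 : ℝ) ^ 29 ≤ Real.log (t : ℝ)) (hℓ : (ℓ : ℝ) ≤ 2 + Real.log (t : ℝ)) :
    2 ^ 770 * ℓ ^ 105 ≤ t := by
  have ht0 : (0 : ℝ) < t := by exact_mod_cast ht
  obtain ⟨x, hx⟩ : ∃ x, x = Real.log (t : ℝ) := ⟨_, rfl⟩
  rw [← hx] at hL hℓ
  have hx0 : (2 : ℝ) ^ 29 ≤ x := hL
  have h29 : (2 : ℝ) ^ 29 = 536870912 := by norm_num
  rw [h29] at hx0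
  have h1 : (2 : ℝ) ^ 770 ≤ Real.exp (x / 2) := by
    have h2 : (2 : ℝ) ≤ Real.exp 1 := by
      have := Real.exp_one_gt_d9
      linarith
    calc (2 : ℝ) ^ 770 ≤ (Real.exp 1) ^ 770 := pow_le_pow_left₀ (by norm_num) h2 770
      _ = Real.exp 770 := by rw [← Real.exp_nat_mul]; norm_num
      _ ≤ Real.exp (x / 2) := Real.exp_le_exp.2 (by linarith)
  have h2 : (2 + x) ^ 105 ≤ Real.exp (x / 2) := by
    have h3 : 2 + x ≤ Real.exp (x / 210) := by
      have h4 := Real.quadratic_le_exp_of_nonneg (x := x / 210) (by linarith)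
      refine le_trans ?_ h4
      nlinarith
    calc (2 + x) ^ 105 ≤ (Real.exp (x / 210)) ^ 105 := pow_le_pow_left₀ (by linarith) h3 105
      _ = Real.exp (x / 2) := by
        rw [← Real.exp_nat_mul]
        congr 1
        push_cast
        ring
  have h4 : (ℓ : ℝ) ^ 105 ≤ (2 + x) ^ 105 := pow_le_pow_left₀ (Nat.cast_nonneg _) hℓ 105
  obtain ⟨B, hB⟩ : ∃ B : ℕ, B = 2 ^ 770 := ⟨_, rfl⟩
  have hBR : (B : ℝ) = 2 ^ 770 := by rw [hB, Nat.cast_pow, Nat.cast_ofNat]
  rw [← hBR] at h1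
  rw [← hB]
  have h3 : ((B * ℓ ^ 105 : ℕ) : ℝ) ≤ (t : ℝ) := by
    rw [Nat.cast_mul, Nat.cast_pow]
    calc (B : ℝ) * (ℓ : ℝ) ^ 105 ≤ Real.exp (x / 2) * Real.exp (x / 2) :=
          mul_le_mul h1 (h4.trans h2) (pow_nonneg (Nat.cast_nonneg _) _) (Real.exp_pos _).le
      _ = Real.exp x := by rw [← Real.exp_add]; congr 1; ring
      _ = t := by rw [hx, Real.exp_log ht0]
  exact Nat.cast_le.1 h3

/-- The linear bound for small graphs gives the linear bound for all graphs. -/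
theorem all_linear (hsl : ∀ (V : Type) [Fintype V] [DecidableEq V] (G : SimpleGraph V) (U : Finset V) (t : ℕ),
      1 ≤ t → U.card ^ 4 ≤ t ^ 5 → ¬ Model G U t → Col G U (2 ^ 43 * t)) :
    ∀ (V : Type) [Fintype V] [DecidableEq V] (G : SimpleGraph V) (U : Finset V) (t : ℕ), 1 ≤ t →
      ¬ Model G U t → Col G U (2 ^ 50 * t) := by
  intro V _ _ G U t ht hmod
  have htR : (1 : ℝ) ≤ t := by exact_mod_cast ht
  have hx0 : 0 ≤ Real.log (t : ℝ) := Real.log_nonneg htR
  rcases lt_or_ge (Real.log (t : ℝ)) ((2 : ℝ) ^ 29) with hcase | hcase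
  · -- small `t`
    apply col_low ht ?_ U.card U le_rfl hmod
    have e0 : (((2 ^ 50 * t : ℕ)) : ℝ) = 2 ^ 50 * (t : ℝ) := by rw [Nat.cast_mul, Nat.cast_pow]; norm_num
    rw [e0]
    have h29 : (2 : ℝ) ^ 29 = 536870912 := by norm_num
    rw [h29] at hcase
    have h1 : (2 : ℝ) ^ 20 * (1 + Real.log (t : ℝ)) < 2 ^ 50 := by
      have h2 : (2 : ℝ) ^ 50 = 2 ^ 20 * 1073741824 := by norm_num
      rw [h2]
      apply mul_lt_mul_of_pos_left _ (by positivity)
      linarith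
    have h3 : (2 : ℝ) ^ 20 * t * (1 + Real.log (t : ℝ)) = (2 ^ 20 * (1 + Real.log (t : ℝ))) * t := by ring
    rw [h3]
    exact mul_lt_mul_of_pos_right h1 (by linarith)
  · -- large `t`
    obtain ⟨x, hx⟩ : ∃ x, x = Real.log (t : ℝ) := ⟨_, rfl⟩
    obtain ⟨ℓ, hℓ⟩ : ∃ ℓ : ℕ, ℓ = ⌈1 + Real.log (t : ℝ)⌉₊ := ⟨_, rfl⟩
    have hℓx : 1 + x ≤ (ℓ : ℝ) := by rw [hℓ, hx]; exact Nat.le_ceil _
    have hℓx' : (ℓ : ℝ) ≤ 2 + Real.log (t : ℝ) := by
      have := (Nat.ceil_lt_add_one (show 0 ≤ 1 + Real.log (t : ℝ) by linarith)).le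
      rw [← hℓ] at this
      linarith
    have hbig : 2 ^ 770 * ℓ ^ 105 ≤ t := HJ_num ht hcase hℓx'
    rw [← hx] at hx0
    have hℓ1R : (1 : ℝ) ≤ ℓ := by linarith
    have hℓ1 : 1 ≤ ℓ := by exact_mod_cast hℓ1R
    have hQ : 2 ^ 400 * ℓ ^ 60 ≤ t := by
      refine le_trans ?_ hbig
      exact Nat.mul_le_mul (Nat.pow_le_pow_right (by norm_num) (by norm_num))
        (Nat.pow_le_pow_right hℓ1 (by norm_num))
    obtain ⟨s, hs⟩ : ∃ s, s = 2 ^ 14 * ℓ := ⟨_, rfl⟩
    obtain ⟨h, hh⟩ : ∃ h, h = 2 ^ 143 * ℓ ^ 23 * t := ⟨_, rfl⟩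
    obtain ⟨m, hm⟩ : ∃ m, m = 4 * s ^ 2 * h + (4 * s ^ 2 + 5) * t := ⟨_, rfl⟩
    obtain ⟨n1, n2, n3, n4, n5, -⟩ := num_nat hℓ1 hQ hs hh hm
    have hs1 : 1 ≤ s := by rw [hs]; exact Nat.mul_pos (by norm_num) hℓ1
    have n6 : ∀ τ, t ≤ τ * s → m ^ 4 ≤ τ ^ 5 := by
      intro τ hτ
      have h1 : m ≤ 2 ^ 189 * ℓ ^ 26 * τ := by
        apply Nat.le_of_mul_le_mul_right _ hs1
        calc m * s ≤ 2 ^ 189 * ℓ ^ 26 * t := n5
          _ ≤ 2 ^ 189 * ℓ ^ 26 * (τ * s) := Nat.mul_le_mul_left _ hτ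
          _ = 2 ^ 189 * ℓ ^ 26 * τ * s := by ring
      have h2 : 2 ^ 756 * ℓ ^ 104 ≤ τ := by
        apply Nat.le_of_mul_le_mul_right _ hs1
        calc 2 ^ 756 * ℓ ^ 104 * s = 2 ^ 770 * ℓ ^ 105 := by
              rw [hs]
              obtain ⟨a, ha⟩ : ∃ a, a = 2 ^ 756 := ⟨_, rfl⟩
              have h3 : (2 : ℕ) ^ 770 = 2 ^ 756 * 2 ^ 14 := by rw [← pow_add]
              rw [h3, ← ha]
              ring
          _ ≤ t := hbig
          _ ≤ τ * s := hτ
      calc m ^ 4 ≤ (2 ^ 189 * ℓ ^ 26 * τ) ^ 4 := Nat.pow_le_pow_left h1 4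
        _ = 2 ^ 756 * ℓ ^ 104 * τ ^ 4 := by
          rw [mul_pow, mul_pow, ← pow_mul, ← pow_mul]
        _ ≤ τ * τ ^ 4 := Nat.mul_le_mul_right _ h2
        _ = τ ^ 5 := by ring
    have hpc : Piece G U (2 ^ 45 * t) (2 ^ 15 * t) h := by
      rw [hh]
      exact piece_inst ht (by rw [← hx]; exact hℓx) n2 hmod
    have hslog : 2 ^ 10 * (1 + Real.log ((2 ^ 15 * t : ℕ) : ℝ)) ≤ s := by
      have e1 : Real.log ((2 ^ 15 * t : ℕ) : ℝ) = 15 * Real.log 2 + x := by
        rw [Nat.cast_mul, Nat.cast_pow, Real.log_mul (by positivity) (by positivity), Real.log_pow, ← hx]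
        norm_num
      have e2 : Real.log 2 ≤ 0.6931471808 := Real.log_two_lt_d9.le
      rw [e1, hs]
      push_cast
      nlinarith
    have key := top_level (G := G) (U := U) (t := t) (s := s) (h := h) (m := m) (cb := 2 ^ 45 * t)
      (K0 := 2 ^ 45) ht (by omega) hpc hslog n1 n3 n4 hm.ge ?_ hmod
    · exact key.mono (Finset.Subset.refl _) (by omega)
    · intro τ hτ hτ1 hτt M hM hMκ W hW hWm hWc R hR hRτ
      have hMτ : τ ≤ M.card := hMκ.1.le
      obtain ⟨R', hRR', hR'M, hR'c⟩ := Finset.exists_subsuperset_card_eq hR hRτ hMτ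
      have hW4 : W.card ^ 4 ≤ τ ^ 5 := (Nat.pow_le_pow_left hWm 4).trans (n6 τ hτ)
      have hW2 : W.card ^ 2 ≤ τ ^ 3 := by
        have h1 : (W.card ^ 2) ^ 2 ≤ (τ ^ 3) ^ 2 := by
          calc (W.card ^ 2) ^ 2 = W.card ^ 4 := by ring
            _ ≤ τ ^ 5 := hW4
            _ ≤ τ ^ 6 := Nat.pow_le_pow_right hτ1 (by norm_num)
            _ = (τ ^ 3) ^ 2 := by ring
        exact (Nat.pow_le_pow_iff_left (by norm_num)).1 h1
      obtain ⟨f, hf1, hf2⟩ := rooted_gen (c0 := 2 ^ 43 * τ) hτ1 hMκ hW hR'M hR'c hW2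
        (fun Y hY hY' => hsl V G Y τ hτ1
          ((Nat.pow_le_pow_left (Finset.card_le_card hY) 4).trans hW4) hY')
        (by omega) (by omega) hWc
      exact ⟨f, fun r hr => hf1 r (hRR' hr), fun r hr r' hr' hne => hf2 r (hRR' hr) r' (hRR' hr') hne⟩

end HD
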