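import Pool.Agent.LibHJ57.All
import Pool.Agent.LibHD.Final

/-!
# LibHJ57 : the linear bound in terms of colourings
-/

set_option autoImplicit false
set_option linter.unusedSectionVars false

open scoped Classical

noncomputable section

namespace HD

/-- The linear bound for small graphs implies: every finite graph with no `K_{t+1}` minor is
`(10 ^ 16 * t)`-colourable. -/
theorem linear_sets (hsl : ∀ (V : Type) [Fintype V] [DecidableEq V] (G : SimpleGraph V) (U : Finset V) (t : ℕ),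
      1 ≤ t → U.card ^ 4 ≤ t ^ 5 → ¬ Model G U t → Col G U (2 ^ 43 * t)) :
    ∀ (V : Type) [Fintype V] (G : SimpleGraph V) (t : ℕ), 1 ≤ t →
    (¬ ∃ f : Fin (t + 1) → Set V, (∀ i, (G.induce (f i)).Connected) ∧ (∀ i j, i ≠ j → Disjoint (f i) (f j)) ∧
      (∀ i j, i ≠ j → ∃ u ∈ f i, ∃ v ∈ f j, G.Adj u v)) →
    G.Colorable (10 ^ 16 * t) := by
  intro V _ G t ht hno
  have hcol := all_linear hsl V G Finset.univ (t + 1) (by omega) (fun hm => hno (model_to_sets hm))
  obtain ⟨φ, p1, p2⟩ := hcol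
  have h3 : 2 ^ 50 * (t + 1) ≤ 10 ^ 16 * t := by
    have h4 : (2 : ℕ) ^ 50 = 1125899906842624 := by norm_num
    rw [h4]
    omega
  exact ⟨⟨fun v => ⟨φ v, (p1 v (Finset.mem_univ v)).trans_le h3⟩, fun {a b} hab heq =>
    p2 a (Finset.mem_univ a) b (Finset.mem_univ b) hab (congrArg Fin.val heq)⟩⟩

end HD
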