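import Pool.Agent.LibHD.X1

/-!
# LibHJ57 : block 3 of the linear bound; the group version of Menger's theorem
-/

set_option autoImplicit false
set_option linter.unusedSectionVars false

open scoped Classical

noncomputable section

namespace HD

/-- The image of a connected set under a map sending edges to edges or points is connected. -/
theorem HJ_image {N M : Type*} {T : SimpleGraph N} {T' : SimpleGraph M} (ρ : N → M)
    (hρ : ∀ x y, T.Adj x y → ρ x = ρ y ∨ T'.Adj (ρ x) (ρ y)) {S : Set N} (hS : (T.induce S).Connected) :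
    (T'.induce (ρ '' S)).Connected := by
  have hne : Nonempty (ρ '' S) := by
    obtain ⟨⟨x, hx⟩⟩ := hS.nonempty
    exact ⟨⟨ρ x, x, hx, rfl⟩⟩
  have key : ∀ a b : S, (T.induce S).Reachable a b →
      (T'.induce (ρ '' S)).Reachable ⟨ρ a, a, a.2, rfl⟩ ⟨ρ b, b, b.2, rfl⟩ := by
    intro a b hab
    obtain ⟨w⟩ := hab
    induction w with
    | nil => exact SimpleGraph.Reachable.refl _
    | cons hadj w ih =>
      rename_i u v z
      refine SimpleGraph.Reachable.trans ?_ ih
      rcases hρ u.1 v.1 hadj with h | h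
      · have h1 : (⟨ρ u, u, u.2, rfl⟩ : ρ '' S) = ⟨ρ v, v, v.2, rfl⟩ := Subtype.ext h
        rw [h1]
      · exact SimpleGraph.Adj.reachable h
  refine ⟨?_⟩
  rintro ⟨_, x, hx, rfl⟩ ⟨_, y, hy, rfl⟩
  exact key ⟨x, hx⟩ ⟨y, hy⟩ (hS.preconnected _ _)

/-- The graph with one extra vertex for every source and every sink. -/
def auxG {V I J : Type*} (G : SimpleGraph V) (A : Finset V) (P : I → Finset V) (T : J → Finset V) :
    SimpleGraph (V ⊕ (I ⊕ J)) where
  Adj a b := match a, b with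
    | .inl u, .inl v => G.Adj u v ∧ u ∈ A ∧ v ∈ A
    | .inl u, .inr (.inl i) => u ∈ P i ∧ u ∈ A
    | .inr (.inl i), .inl u => u ∈ P i ∧ u ∈ A
    | .inl u, .inr (.inr j) => u ∈ T j ∧ u ∈ A
    | .inr (.inr j), .inl u => u ∈ T j ∧ u ∈ A
    | .inr _, .inr _ => False
  symm := ⟨by
    rintro (a | a | a) (b | b | b) h
    · exact ⟨h.1.symm, h.2.2, h.2.1⟩
    all_goals exact h⟩
  loopless := ⟨by
    rintro (a | a | a) h
    · exact G.loopless.irrefl a h.1
    all_goals exact h⟩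

variable {V : Type*} [Fintype V] [DecidableEq V] {G : SimpleGraph V}

theorem GM_extract {I J : Type*} [Fintype I] [Fintype J] [DecidableEq I] [DecidableEq J]
    {A : Finset V} {P : I → Finset V} {T : J → Finset V} {F : Finset (V ⊕ (I ⊕ J))} {i : I}
    (hF : Conn (auxG G A P T) F) (hi : Sum.inr (Sum.inl i) ∈ F)
    (hu : ∀ i', Sum.inr (Sum.inl i') ∈ F → i' = i) (hJ : ∃ j, Sum.inr (Sum.inr j) ∈ F) :
    ∃ Y : Finset V, (∀ v ∈ Y, Sum.inl v ∈ F) ∧ Y ⊆ A ∧ Conn G Y ∧ (Y ∩ P i).Nonempty ∧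
      ∃ j, Sum.inr (Sum.inr j) ∈ F ∧ (Y ∩ T j).Nonempty := by
  obtain ⟨j0, hj0⟩ := hJ
  obtain ⟨Q, hQ⟩ : ∃ Q : Finset V, ∀ v, v ∈ Q ↔ Sum.inl v ∈ F :=
    ⟨Finset.univ.filter (fun v => Sum.inl v ∈ F), fun v => by simp⟩
  obtain ⟨R, hR⟩ : ∃ R : Finset (V ⊕ (I ⊕ J)), ∀ z, z ∈ R ↔ (z = Sum.inr (Sum.inl i) ∨
      ∃ v, z = Sum.inl v ∧ ∃ x ∈ P i, x ∈ A ∧ Joined (res G A) Q x v) :=
    ⟨Finset.univ.filter (fun z => z = Sum.inr (Sum.inl i) ∨
      ∃ v, z = Sum.inl v ∧ ∃ x ∈ P i, x ∈ A ∧ Joined (res G A) Q x v), fun z => by simp⟩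
  have hiR : Sum.inr (Sum.inl i) ∈ R := (hR _).2 (Or.inl rfl)
  have hjR : Sum.inr (Sum.inr j0) ∉ R := by
    intro h
    rcases (hR _).1 h with h1 | ⟨v, h1, _⟩
    · exact absurd (Sum.inr.inj h1) (by simp)
    · exact absurd h1 (by simp)
  obtain ⟨u, hu1, w, hw1, hadj⟩ := joined_split (hF.joined hi hj0) hiR hjR
  obtain ⟨huF, huR⟩ := Finset.mem_inter.1 hu1
  obtain ⟨hwF, hwR⟩ := Finset.mem_sdiff.1 hw1
  rcases (hR u).1 huR with rfl | ⟨v, rfl, x, hxP, hxA, hj⟩
  · -- `u` is the source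
    rcases w with w | w | w
    · have h1 : w ∈ P i ∧ w ∈ A := hadj
      exact absurd ((hR _).2 (Or.inr ⟨w, rfl, w, h1.1, h1.2, joined_refl ((hQ w).2 hwF)⟩)) hwR
    · exact absurd hadj (fun h => h)
    · exact absurd hadj (fun h => h)
  · rcases w with w | w | w
    · have h1 : G.Adj v w ∧ v ∈ A ∧ w ∈ A := hadj
      have h2 : Joined (res G A) Q v w := joined_of_adj hj.mem_right ((hQ w).2 hwF) h1
      exact absurd ((hR _).2 (Or.inr ⟨w, rfl, x, hxP, hxA, hj.trans h2⟩)) hwR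
    · have h1 := hu w hwF
      rw [h1] at hwR
      exact absurd hiR hwR
    · have h1 : v ∈ T w ∧ v ∈ A := hadj
      obtain ⟨Y, h2, h3, h4, h5⟩ := hj
      exact ⟨Y, fun z hz => (hQ z).1 (h2 hz), X1_sub h5 h3 hxA, X1_conn_of_res h5,
        ⟨x, Finset.mem_inter.2 ⟨h3, hxP⟩⟩, w, hwF, ⟨v, Finset.mem_inter.2 ⟨h4, h1.1⟩⟩⟩

/-- Group Menger: disjoint connected sets from the sources to distinct sinks, every source and every sink being a
set of possible ends. -/
theorem group_menger {I J : Type*} [Fintype I] [Fintype J] [DecidableEq I] [DecidableEq J]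
    {A : Finset V} {P : I → Finset V} {T : J → Finset V}
    (h : ∀ (I' : Finset I) (J' : Finset J) (S : Finset V), S.card + Fintype.card J < I'.card + J'.card →
      ∃ i ∈ I', ∃ x ∈ P i, ∃ j ∈ J', ∃ y ∈ T j, Joined G (A \ S) x y) :
    ∃ (Y : I → Finset V) (φ : I → J), Function.Injective φ ∧
      (∀ i, Y i ⊆ A ∧ Conn G (Y i) ∧ (Y i ∩ P i).Nonempty ∧ (Y i ∩ T (φ i)).Nonempty) ∧
      ∀ i i', i ≠ i' → Disjoint (Y i) (Y i') := by
  obtain ⟨F, hF, hFd⟩ := menger (auxG G A P T) (Finset.univ.image (fun i : I => Sum.inr (Sum.inl i)))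
    (Finset.univ.image (fun j : J => Sum.inr (Sum.inr j))) (Fintype.card I) (by
      intro S' hS'
      obtain ⟨i, hi, x, hx, j, hj, y, hy, Y0, h1, h2, h3, h4⟩ :=
        h (S'.toRight.toLeft)ᶜ (S'.toRight.toRight)ᶜ S'.toLeft (by
          have e1 := Finset.card_toLeft_add_card_toRight (u := S')
          have e2 := Finset.card_toLeft_add_card_toRight (u := S'.toRight)
          have e3 := Finset.card_compl_add_card (S'.toRight.toLeft)
          have e4 := Finset.card_compl_add_card (S'.toRight.toRight)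
          omega)
      have hi' : Sum.inr (Sum.inl i) ∉ S' := by
        intro hc
        exact (Finset.mem_compl.1 hi) (Finset.mem_toLeft.2 (Finset.mem_toRight.2 hc))
      have hj' : Sum.inr (Sum.inr j) ∉ S' := by
        intro hc
        exact (Finset.mem_compl.1 hj) (Finset.mem_toRight.2 (Finset.mem_toRight.2 hc))
      have hY0A : Y0 ⊆ A := h1.trans Finset.sdiff_subset
      refine ⟨Sum.inr (Sum.inl i), Finset.mem_sdiff.2 ⟨Finset.mem_image_of_mem _ (Finset.mem_univ i), hi'⟩,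
        Sum.inr (Sum.inr j), Finset.mem_sdiff.2 ⟨Finset.mem_image_of_mem _ (Finset.mem_univ j), hj'⟩, ?_⟩
      have hc0 : Conn (auxG G A P T) (Y0.image Sum.inl) := by
        have h5 : ((res G A).induce (Y0 : Set V)).Connected := X1_conn_res hY0A h4
        have h6 := HJ_image (T' := auxG G A P T) Sum.inl (fun a b hab => Or.inr hab) h5
        unfold Conn
        rw [Finset.coe_image]
        exact h6
      have hc1 : Conn (auxG G A P T) ({Sum.inr (Sum.inl i)} ∪ Y0.image Sum.inl) :=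
        (conn_singleton _).union_touch hc0 ⟨_, Finset.mem_singleton_self _, Sum.inl x,
          Finset.mem_image_of_mem _ h2, ⟨hx, hY0A h2⟩⟩
      have hc2 : Conn (auxG G A P T) (({Sum.inr (Sum.inl i)} ∪ Y0.image Sum.inl) ∪ {Sum.inr (Sum.inr j)}) :=
        hc1.union_touch (conn_singleton _) ⟨Sum.inl y, Finset.mem_union_right _ (Finset.mem_image_of_mem _ h3),
          _, Finset.mem_singleton_self _, ⟨hy, hY0A h3⟩⟩
      refine ⟨_, ?_, ?_, ?_, hc2⟩
      · intro z hz
        refine Finset.mem_sdiff.2 ⟨Finset.mem_univ z, ?_⟩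
        rcases Finset.mem_union.1 hz with hz | hz
        · rcases Finset.mem_union.1 hz with hz | hz
          · rw [Finset.mem_singleton.1 hz]
            exact hi'
          · obtain ⟨v, hv, rfl⟩ := Finset.mem_image.1 hz
            intro hc
            exact (Finset.mem_sdiff.1 (h1 hv)).2 (Finset.mem_toLeft.2 hc)
        · rw [Finset.mem_singleton.1 hz]
          exact hj'
      · exact Finset.mem_union_left _ (Finset.mem_union_left _ (Finset.mem_singleton_self _))
      · exact Finset.mem_union_right _ (Finset.mem_singleton_self _))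
  have hc : ∀ k, ∃ i : I, Sum.inr (Sum.inl i) ∈ F k := by
    intro k
    obtain ⟨z, hz⟩ := (hF k).2.1
    obtain ⟨hz1, hz2⟩ := Finset.mem_inter.1 hz
    obtain ⟨i, _, rfl⟩ := Finset.mem_image.1 hz2
    exact ⟨i, hz1⟩
  choose c hc using hc
  have hcinj : Function.Injective c := by
    intro k k' hk
    by_contra hne
    exact Finset.disjoint_left.1 (hFd k k' hne) (hc k) (hk ▸ hc k')
  have hcbij : Function.Bijective c :=
    (Fintype.bijective_iff_injective_and_card c).2 ⟨hcinj, Fintype.card_fin _⟩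
  let e := Equiv.ofBijective c hcbij
  have he : ∀ i, c (e.symm i) = i := fun i => Equiv.apply_symm_apply e i
  have hmemF : ∀ i, Sum.inr (Sum.inl i) ∈ F (e.symm i) := by
    intro i
    have h1 := hc (e.symm i)
    rwa [he] at h1
  have huniq : ∀ i i', Sum.inr (Sum.inl i') ∈ F (e.symm i) → i' = i := by
    intro i i' h1
    by_contra hne
    have h2 : e.symm i ≠ e.symm i' := fun h3 => hne (e.symm.injective h3).symm
    exact Finset.disjoint_left.1 (hFd _ _ h2) h1 (hmemF i')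
  have hJF : ∀ i, ∃ j, Sum.inr (Sum.inr j) ∈ F (e.symm i) := by
    intro i
    obtain ⟨z, hz⟩ := (hF (e.symm i)).2.2
    obtain ⟨hz1, hz2⟩ := Finset.mem_inter.1 hz
    obtain ⟨j, _, rfl⟩ := Finset.mem_image.1 hz2
    exact ⟨j, hz1⟩
  have key := fun i => GM_extract (hF (e.symm i)).1 (hmemF i) (huniq i) (hJF i)
  choose Y hY1 hY2 hY3 hY4 φ hφ hY5 using key
  refine ⟨Y, φ, ?_, fun i => ⟨hY2 i, hY3 i, hY4 i, hY5 i⟩, ?_⟩
  · intro i i' hii
    by_contra hne
    have h2 : e.symm i ≠ e.symm i' := fun h3 => hne (e.symm.injective h3)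
    exact Finset.disjoint_left.1 (hFd _ _ h2) (hφ i) (hii ▸ hφ i')
  · intro i i' hne
    rw [Finset.disjoint_left]
    intro v hv hv'
    have h2 : e.symm i ≠ e.symm i' := fun h3 => hne (e.symm.injective h3)
    exact Finset.disjoint_left.1 (hFd _ _ h2) (hY1 i v hv) (hY1 i' v hv')

end HD
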