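import Pool.Agent.LibHJ57.GM

/-!
# LibHJ57 : linking groups of roots, and the assembly of the strands
-/

set_option autoImplicit false
set_option linter.unusedSectionVars false

open scoped Classical

noncomputable section

namespace HD

variable {V : Type*} [Fintype V] [DecidableEq V] {G : SimpleGraph V}

/-- Linking groups of roots. The roots are `x ρ`, each with a connected set `f ρ`, and `A` avoids all `f ρ`. -/
theorem group_link {I J Rt : Type*} [Fintype I] [Fintype J] [DecidableEq I] [DecidableEq J]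
    [DecidableEq Rt] (x : Rt → V) (f : Rt → Finset V) (hx : ∀ ρ, x ρ ∈ f ρ ∧ Conn G (f ρ))
    (hd : ∀ ρ ρ', ρ ≠ ρ' → Disjoint (f ρ) (f ρ')) (A : Finset V) (hA : ∀ ρ, Disjoint A (f ρ))
    (Reg : Finset Rt) (P : I → Finset Rt) (T : J → Finset Rt) (hP : ∀ i, P i ⊆ Reg) (hT : ∀ j, T j ⊆ Reg)
    (h : ∀ (I' : Finset I) (J' : Finset J) (S : Finset V), S.card + Fintype.card J < I'.card + J'.card →
      ∃ i ∈ I', ∃ ρ ∈ P i, ∃ j ∈ J', ∃ ρ' ∈ T j, x ρ ∉ S ∧ x ρ' ∉ S ∧
        Joined G (insert (x ρ) (insert (x ρ') (A \ S))) (x ρ) (x ρ')) :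
    ∃ (φ : I → J) (α β : I → Rt) (E : I → Finset V), Function.Injective φ ∧
      (∀ i, α i ∈ P i ∧ β i ∈ T (φ i) ∧ E i ⊆ A ∪ Reg.biUnion f ∧ Conn G (E i) ∧ f (α i) ⊆ E i ∧ f (β i) ⊆ E i) ∧
      ∀ i i', i ≠ i' → Disjoint (E i) (E i') := by
  obtain ⟨Y, φ, hφ, hY, hYd⟩ := group_menger (G := G) (A := A ∪ Reg.image x) (P := fun i => (P i).image x)
    (T := fun j => (T j).image x) (by
      intro I' J' S hS
      obtain ⟨i, hi, ρ, hρ, j, hj, ρ', hρ', h1, h2, h3⟩ := h I' J' S hS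
      refine ⟨i, hi, x ρ, Finset.mem_image_of_mem _ hρ, j, hj, x ρ', Finset.mem_image_of_mem _ hρ', h3.mono ?_⟩
      intro v hv
      rcases Finset.mem_insert.1 hv with hv | hv
      · rw [hv]
        exact Finset.mem_sdiff.2 ⟨Finset.mem_union_right _ (Finset.mem_image_of_mem _ (hP i hρ)), h1⟩
      · rcases Finset.mem_insert.1 hv with hv | hv
        · rw [hv]
          exact Finset.mem_sdiff.2 ⟨Finset.mem_union_right _ (Finset.mem_image_of_mem _ (hT j hρ')), h2⟩
        · exact Finset.mem_sdiff.2 ⟨Finset.mem_union_left _ (Finset.mem_sdiff.1 hv).1, (Finset.mem_sdiff.1 hv).2⟩)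
  have hα : ∀ i, ∃ ρ ∈ P i, x ρ ∈ Y i := by
    intro i
    obtain ⟨v, hv⟩ := (hY i).2.2.1
    obtain ⟨hv1, hv2⟩ := Finset.mem_inter.1 hv
    obtain ⟨ρ, hρ, rfl⟩ := Finset.mem_image.1 hv2
    exact ⟨ρ, hρ, hv1⟩
  have hβ : ∀ i, ∃ ρ ∈ T (φ i), x ρ ∈ Y i := by
    intro i
    obtain ⟨v, hv⟩ := (hY i).2.2.2
    obtain ⟨hv1, hv2⟩ := Finset.mem_inter.1 hv
    obtain ⟨ρ, hρ, rfl⟩ := Finset.mem_image.1 hv2
    exact ⟨ρ, hρ, hv1⟩
  choose α hα1 hα2 using hα
  choose β hβ1 hβ2 using hβ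
  have hYf : ∀ i i', i ≠ i' → ∀ ρ, x ρ ∈ Y i → Disjoint (Y i') (f ρ) := by
    intro i i' hne ρ hρ
    rw [Finset.disjoint_left]
    intro v hv hvf
    rcases Finset.mem_union.1 ((hY i').1 hv) with h1 | h1
    · exact Finset.disjoint_left.1 (hA ρ) h1 hvf
    · obtain ⟨ρ', _, rfl⟩ := Finset.mem_image.1 h1
      by_cases h2 : ρ' = ρ
      · rw [h2] at hv
        exact Finset.disjoint_left.1 (hYd i i' hne) hρ hv
      · exact Finset.disjoint_left.1 (hd ρ' ρ h2) (hx ρ').1 hvf
  have hff : ∀ i i', i ≠ i' → ∀ ρ ρ', x ρ ∈ Y i → x ρ' ∈ Y i' → Disjoint (f ρ) (f ρ') := by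
    intro i i' hne ρ ρ' hρ hρ'
    apply hd
    rintro rfl
    exact Finset.disjoint_left.1 (hYd i i' hne) hρ hρ'
  refine ⟨φ, α, β, fun i => Y i ∪ f (α i) ∪ f (β i), hφ, ?_, ?_⟩
  · intro i
    refine ⟨hα1 i, hβ1 i, ?_, ?_, ?_, ?_⟩
    · apply Finset.union_subset
      · apply Finset.union_subset
        · intro v hv
          rcases Finset.mem_union.1 ((hY i).1 hv) with h1 | h1
          · exact Finset.mem_union_left _ h1
          · obtain ⟨ρ', hρ', rfl⟩ := Finset.mem_image.1 h1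
            exact Finset.mem_union_right _ (Finset.mem_biUnion.2 ⟨ρ', hρ', (hx ρ').1⟩)
        · exact (Finset.subset_biUnion_of_mem f (hP i (hα1 i))).trans Finset.subset_union_right
      · exact (Finset.subset_biUnion_of_mem f (hT _ (hβ1 i))).trans Finset.subset_union_right
    · have h1 := (hY i).2.1.union_mem (hx (α i)).2 (hα2 i) (hx (α i)).1
      exact h1.union_mem (hx (β i)).2 (Finset.mem_union_left _ (hβ2 i)) (hx (β i)).1
    · exact Finset.subset_union_right.trans Finset.subset_union_left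
    · exact Finset.subset_union_right
  · intro i i' hne
    rw [Finset.disjoint_union_left, Finset.disjoint_union_left, Finset.disjoint_union_right,
      Finset.disjoint_union_right, Finset.disjoint_union_right, Finset.disjoint_union_right,
      Finset.disjoint_union_right, Finset.disjoint_union_right]
    exact ⟨⟨⟨⟨hYd i i' hne, hYf i' i hne.symm _ (hα2 i')⟩, hYf i' i hne.symm _ (hβ2 i')⟩,
      ⟨⟨(hYf i i' hne _ (hα2 i)).symm, hff i i' hne _ _ (hα2 i) (hα2 i')⟩, hff i i' hne _ _ (hα2 i) (hβ2 i')⟩⟩,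
      ⟨⟨(hYf i i' hne _ (hβ2 i)).symm, hff i i' hne _ _ (hβ2 i) (hα2 i')⟩, hff i i' hne _ _ (hβ2 i) (hβ2 i')⟩⟩

/-- The strand `(i, s)` up to position `m`. -/
def strand {r τ : ℕ} (N L : Fin r → Fin r → Fin τ → Finset V) (i : Fin r) (σ : ℕ → Fin τ) : ℕ → Finset V
  | 0 => if h : 0 < r then N i ⟨0, h⟩ (σ 0) else ∅
  | m + 1 => if h : m + 1 < r then
      strand N L i σ m ∪ (L i ⟨m, Nat.lt_of_succ_lt h⟩ (σ m) ∪ N i ⟨m + 1, h⟩ (σ (m + 1))) else strand N L i σ m

theorem strand_mem {r τ : ℕ} {N L : Fin r → Fin r → Fin τ → Finset V} {i : Fin r} {σ : ℕ → Fin τ} :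
    ∀ m, ∀ v ∈ strand N L i σ m, (∃ j : Fin r, v ∈ N i j (σ j)) ∨
      ∃ j j' : Fin r, (j' : ℕ) = j + 1 ∧ v ∈ L i j (σ j) := by
  intro m
  induction m with
  | zero =>
    intro v hv
    unfold strand at hv
    by_cases h : 0 < r
    · rw [dif_pos h] at hv
      exact Or.inl ⟨⟨0, h⟩, hv⟩
    · rw [dif_neg h] at hv
      exact absurd hv (Finset.notMem_empty v)
  | succ m ih =>
    intro v hv
    unfold strand at hv
    by_cases h : m + 1 < r
    · rw [dif_pos h] at hv
      rcases Finset.mem_union.1 hv with h1 | h1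
      · exact ih v h1
      · rcases Finset.mem_union.1 h1 with h2 | h2
        · exact Or.inr ⟨⟨m, Nat.lt_of_succ_lt h⟩, ⟨m + 1, h⟩, rfl, h2⟩
        · exact Or.inl ⟨⟨m + 1, h⟩, h2⟩
    · rw [dif_neg h] at hv
      exact ih v hv

theorem strand_mono {r τ : ℕ} {N L : Fin r → Fin r → Fin τ → Finset V} {i : Fin r} {σ : ℕ → Fin τ} {m m' : ℕ}
    (h : m ≤ m') : strand N L i σ m ⊆ strand N L i σ m' := by
  induction m', h using Nat.le_induction with
  | base => exact Finset.Subset.refl _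
  | succ n _ ih =>
    refine ih.trans ?_
    rw [strand]
    by_cases h : n + 1 < r
    · rw [dif_pos h]
      exact Finset.subset_union_left
    · rw [dif_neg h]

theorem strand_node {r τ : ℕ} {N L : Fin r → Fin r → Fin τ → Finset V} {i : Fin r} {σ : ℕ → Fin τ} (j : Fin r) :
    N i j (σ j) ⊆ strand N L i σ (j : ℕ) := by
  obtain ⟨j, hj⟩ := j
  rcases j with _ | m
  · rw [strand, dif_pos hj]
  · rw [strand, dif_pos hj]
    exact Finset.subset_union_right.trans Finset.subset_union_right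

theorem strand_conn {r τ : ℕ} {N L : Fin r → Fin r → Fin τ → Finset V} {i : Fin r} {σ : ℕ → Fin τ}
    (hN : ∀ j s, Conn G (N i j s))
    (hL : ∀ (j j' : Fin r), (j' : ℕ) = j + 1 → Conn G (L i j (σ j)) ∧ Touch G (N i j (σ j)) (L i j (σ j)) ∧
      Touch G (L i j (σ j)) (N i j' (σ j'))) :
    ∀ m, m < r → Conn G (strand N L i σ m) := by
  intro m
  induction m with
  | zero =>
    intro h
    rw [strand, dif_pos h]
    exact hN _ _
  | succ m ih =>
    intro h
    rw [strand, dif_pos h]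
    obtain ⟨h1, h2, h3⟩ := hL ⟨m, Nat.lt_of_succ_lt h⟩ ⟨m + 1, h⟩ rfl
    have h4 := h1.union_touch (hN ⟨m + 1, h⟩ (σ (m + 1))) h3
    refine (ih (Nat.lt_of_succ_lt h)).union_touch h4 (h2.mono ?_ Finset.subset_union_left)
    exact strand_node (⟨m, Nat.lt_of_succ_lt h⟩ : Fin r)

/-- The index of the port used by strand `s` at position `m`. -/
def port {r τ : ℕ} (π : Fin r → Fin τ → Fin τ) (s : Fin τ) : ℕ → Fin τ
  | 0 => s
  | m + 1 => if h : m < r then π ⟨m, h⟩ (port π s m) else port π s m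

theorem port_inj {r τ : ℕ} {π : Fin r → Fin τ → Fin τ}
    (hπ : ∀ (j j' : Fin r), (j' : ℕ) = j + 1 → Function.Injective (π j)) :
    ∀ m, m < r → ∀ s s', port π s m = port π s' m → s = s' := by
  intro m
  induction m with
  | zero =>
    intro _ s s' h
    exact h
  | succ m ih =>
    intro hm s s' h
    have h1 : m < r := Nat.lt_of_succ_lt hm
    rw [port, port, dif_pos h1, dif_pos h1] at h
    exact ih h1 s s' (hπ ⟨m, h1⟩ ⟨m + 1, hm⟩ rfl h)

/-- The abstract assembly: bundles of strands through nodes and links give a clique model. -/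
theorem chain_model {r τ : ℕ} (hr : 1 ≤ r) {X : Finset V} (N L : Fin r → Fin r → Fin τ → Finset V)
    (π : Fin r → Fin r → Fin τ → Fin τ)
    (hπ : ∀ (i j j' : Fin r), (j' : ℕ) = j + 1 → Function.Injective (π i j))
    (hN : ∀ i j s, N i j s ⊆ X ∧ Conn G (N i j s))
    (hL : ∀ (i j j' : Fin r) (s : Fin τ), (j' : ℕ) = j + 1 → L i j s ⊆ X ∧ Conn G (L i j s) ∧
      Touch G (N i j s) (L i j s) ∧ Touch G (L i j s) (N i j' (π i j s)))
    (hNN : ∀ i j s i' j' s', (i, j, s) ≠ (i', j', s') → Disjoint (N i j s) (N i' j' s'))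
    (hLL : ∀ (i j j1 : Fin r) (s : Fin τ) (i' j' j1' : Fin r) (s' : Fin τ), (j1 : ℕ) = j + 1 → (j1' : ℕ) = j' + 1 →
      (i, j, s) ≠ (i', j', s') → Disjoint (L i j s) (L i' j' s'))
    (hNL : ∀ (i j : Fin r) (s : Fin τ) (i' j' j1' : Fin r) (s' : Fin τ), (j1' : ℕ) = j' + 1 →
      Disjoint (N i j s) (L i' j' s'))
    (hT : ∀ i i' s s', (i ≠ i' ∨ s ≠ s') → Touch G (N i i' s) (N i' i s')) : Model G X (r * τ) := by
  have hport : ∀ (i j j' : Fin r) (s : Fin τ), (j' : ℕ) = j + 1 →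
      port (π i) s j' = π i j (port (π i) s j) := by
    intro i j j' s h
    rw [h, port, dif_pos j.2]
  have hinj : ∀ (i j : Fin r) (s s' : Fin τ), port (π i) s j = port (π i) s' j → s = s' := by
    intro i j s s' h
    exact port_inj (fun j j' h => hπ i j j' h) j j.2 s s' h
  have hmodel : IsModel G X (fun p : Fin r × Fin τ => strand N L p.1 (port (π p.1) p.2) (r - 1)) := by
    refine ⟨?_, ?_⟩
    · rintro ⟨i, s⟩
      refine ⟨?_, ?_⟩
      · intro v hv
        rcases strand_mem _ v hv with ⟨j, hj⟩ | ⟨j, j', hjj, hj⟩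
        · exact (hN _ _ _).1 hj
        · exact (hL i j j' _ hjj).1 hj
      · apply strand_conn (fun j s => (hN _ _ _).2) ?_ (r - 1) (by omega)
        intro j j' hjj
        obtain ⟨h1, h2, h3, h4⟩ := hL i j j' (port (π i) s j) hjj
        refine ⟨h2, h3, ?_⟩
        rw [hport i j j' s hjj]
        exact h4
    · rintro ⟨i, s⟩ ⟨i', s'⟩ hne
      have hne' : ∀ j j' : Fin r, (i, j, port (π i) s j) ≠ (i', j', port (π i') s' j') := by
        intro j j' h
        simp only [Prod.mk.injEq] at h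
        obtain ⟨h1, h2, h3⟩ := h
        subst h1
        subst h2
        exact hne (by rw [hinj i j s s' h3])
      refine ⟨?_, ?_⟩
      · rw [Finset.disjoint_left]
        intro v hv hv'
        rcases strand_mem _ v hv with ⟨j, hj⟩ | ⟨j, j1, hjj, hj⟩ <;>
          rcases strand_mem _ v hv' with ⟨j', hj'⟩ | ⟨j', j1', hjj', hj'⟩
        · exact Finset.disjoint_left.1 (hNN _ _ _ _ _ _ (hne' j j')) hj hj'
        · exact Finset.disjoint_left.1 (hNL i j _ i' j' j1' _ hjj') hj hj'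
        · exact Finset.disjoint_left.1 (hNL i' j' _ i j j1 _ hjj) hj' hj
        · exact Finset.disjoint_left.1 (hLL _ _ j1 _ _ _ j1' _ hjj hjj' (hne' j j')) hj hj'
      · have h1 : i ≠ i' ∨ port (π i) s i' ≠ port (π i') s' i := by
          by_cases h2 : i = i'
          · right
            subst h2
            intro h3
            exact hne (by rw [hinj i i s s' h3])
          · exact Or.inl h2
        refine (hT i i' _ _ h1).mono ?_ ?_
        · exact (strand_node i').trans (strand_mono (by have := i'.2; omega))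
        · exact (strand_node i).trans (strand_mono (by have := i.2; omega))
  have h := hmodel.model
  rwa [Fintype.card_prod, Fintype.card_fin, Fintype.card_fin] at h

end HD
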