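import Pool.Agent.LibHJ.Defs
import Pool.Agent.LibHJ57.Link

/-!
# LibHJ57 : the pieces of one half of the sample give a clique model
-/

set_option autoImplicit false
set_option linter.unusedSectionVars false

open scoped Classical

noncomputable section

namespace HD

variable {V : Type*} [Fintype V] [DecidableEq V] {G : SimpleGraph V}

/-- The meeting piece of the bundles `i` and `j`. -/
def mu {r : ℕ} (i j : Fin r) : Fin r × Fin r := if i ≤ j then (i, j) else (j, i)

theorem mu_comm {r : ℕ} (i j : Fin r) : mu i j = mu j i := by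
  unfold mu
  by_cases h : i ≤ j
  · by_cases h' : j ≤ i
    · have : i = j := le_antisymm h h'
      rw [this]
    · rw [if_pos h, if_neg h']
  · have h' : j ≤ i := le_of_lt (not_le.1 h)
    rw [if_neg h, if_pos h']

theorem mu_eq {r : ℕ} {i j : Fin r} {p : Fin r × Fin r} (h : mu i j = p) :
    (i, j) = p ∨ (i, j) = (p.2, p.1) := by
  unfold mu at h
  by_cases h1 : i ≤ j
  · rw [if_pos h1] at h
    exact Or.inl h
  · rw [if_neg h1] at h
    right
    rw [← h]

/-- counting sources: at most `4 * τ` of them at a meeting piece -/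
theorem src_card {r τ : ℕ} (I' : Finset (Fin r × Fin r × Fin τ × Bool)) :
    I'.card ≤ 4 * τ * (I'.image (fun q => mu q.1 q.2.1)).card := by
  apply Finset.card_le_mul_card_image
  intro p _
  have h1 : (I'.filter (fun q => mu q.1 q.2.1 = p)) ⊆
      (({p, (p.2, p.1)} : Finset (Fin r × Fin r)) ×ˢ (Finset.univ : Finset (Fin τ × Bool))).image
        (fun a => (a.1.1, a.1.2, a.2)) := by
    intro q hq
    have h2 := mu_eq (Finset.mem_filter.1 hq).2
    refine Finset.mem_image.2 ⟨((q.1, q.2.1), q.2.2), ?_, rfl⟩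
    refine Finset.mem_product.2 ⟨?_, Finset.mem_univ _⟩
    rcases h2 with h2 | h2
    · rw [h2]
      exact Finset.mem_insert_self _ _
    · rw [h2]
      exact Finset.mem_insert_of_mem (Finset.mem_singleton_self _)
  refine (Finset.card_le_card h1).trans (Finset.card_image_le.trans ?_)
  rw [Finset.card_product, Finset.card_univ, Fintype.card_prod, Fintype.card_fin, Fintype.card_bool]
  have h3 : ({p, (p.2, p.1)} : Finset (Fin r × Fin r)).card ≤ 2 := Finset.card_le_two
  nlinarith [Nat.zero_le τ]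

/-- Step 1: from the meeting pieces to the switch pieces. -/
theorem half_step1 {r τ ν ℓ n k q3 z0 : ℕ} {B A3 : Finset V}
    (x : ((Fin r × Fin r) ⊕ Fin n) × Fin ν → V) (f : ((Fin r × Fin r) ⊕ Fin n) × Fin ν → Finset V)
    (hx : ∀ ρ, x ρ ∈ f ρ ∧ Conn G (f ρ)) (hxB : ∀ ρ, x ρ ∈ B)
    (hd : ∀ ρ ρ', ρ ≠ ρ' → Disjoint (f ρ) (f ρ')) (hA : ∀ ρ, Disjoint A3 (f ρ))
    (hLk : Lk G A3 B z0 k q3) (hℓν : ℓ ≤ ν) (h1 : z0 ≤ ν) (h2 : z0 ≤ n * ℓ) (h3 : n * ℓ ≤ k)
    (h4 : q3 * (4 * τ) ≤ ν) (h5 : q3 * (2 * r ^ 2 * τ) ≤ n * ℓ) (hq3 : 1 ≤ q3) :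
    ∃ (φ : Fin r × Fin r × Fin τ × Bool → Fin n × Fin ℓ)
      (α : Fin r × Fin r × Fin τ × Bool → Fin ν)
      (E : Fin r × Fin r × Fin τ × Bool → Finset V), Function.Injective φ ∧
      (∀ q, f (Sum.inl (mu q.1 q.2.1), α q) ⊆ E q ∧ f (Sum.inr (φ q).1, Fin.castLE hℓν (φ q).2) ⊆ E q ∧
        Conn G (E q) ∧ ∀ v ∈ E q, v ∈ A3 ∨ (∃ p a, v ∈ f (Sum.inl p, a)) ∨ ∃ p a, v ∈ f (Sum.inr p, a) ∧ (a : ℕ) < ℓ) ∧
      ∀ q q', q ≠ q' → Disjoint (E q) (E q') := by
  have hxi : Function.Injective x := by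
    intro ρ ρ' h
    by_contra hne
    exact Finset.disjoint_left.1 (hd ρ ρ' hne) (hx ρ).1 (h ▸ (hx ρ').1)
  obtain ⟨φ, α, β, E, hφ, hE, hEd⟩ := group_link (G := G) (I := Fin r × Fin r × Fin τ × Bool)
    (J := Fin n × Fin ℓ) x f hx hd A3 hA
    (Finset.univ.filter (fun ρ => (∃ p, ρ.1 = Sum.inl p) ∨ (∃ p, ρ.1 = Sum.inr p ∧ (ρ.2 : ℕ) < ℓ)))
    (fun q => Finset.univ.filter (fun ρ => ρ.1 = Sum.inl (mu q.1 q.2.1)))
    (fun j => {(Sum.inr j.1, Fin.castLE hℓν j.2)})
    (by
      intro q ρ hρ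
      exact Finset.mem_filter.2 ⟨Finset.mem_univ _, Or.inl ⟨_, (Finset.mem_filter.1 hρ).2⟩⟩)
    (by
      intro j ρ hρ
      rw [Finset.mem_singleton.1 hρ]
      exact Finset.mem_filter.2 ⟨Finset.mem_univ _, Or.inr ⟨_, rfl, j.2.2⟩⟩)
    (by
      intro I' J' S hS
      rw [Fintype.card_prod, Fintype.card_fin, Fintype.card_fin] at hS
      have hJ' : J'.card ≤ n * ℓ := by
        refine (Finset.card_le_univ J').trans ?_
        rw [Fintype.card_prod, Fintype.card_fin, Fintype.card_fin]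
      have hI' : I'.card ≤ 2 * r ^ 2 * τ := by
        refine (Finset.card_le_univ I').trans ?_
        rw [Fintype.card_prod, Fintype.card_prod, Fintype.card_prod, Fintype.card_fin, Fintype.card_fin,
          Fintype.card_bool]
        exact le_of_eq (by ring)
      obtain ⟨M, hM⟩ : ∃ M, M = I'.image (fun q => mu q.1 q.2.1) := ⟨_, rfl⟩
      have hIM : I'.card ≤ 4 * τ * M.card := by rw [hM]; exact src_card I'
      obtain ⟨Z1, hZ1⟩ : ∃ Z1, Z1 = (M ×ˢ (Finset.univ : Finset (Fin ν))).image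
        (fun a => x (Sum.inl a.1, a.2)) := ⟨_, rfl⟩
      have hZ1c : Z1.card = M.card * ν := by
        rw [hZ1, Finset.card_image_of_injective, Finset.card_product, Finset.card_univ, Fintype.card_fin]
        intro a b hab
        have h6 := hxi hab
        simp only [Prod.mk.injEq, Sum.inl.injEq] at h6
        exact Prod.ext h6.1 h6.2
      obtain ⟨w, hw⟩ : ∃ w : Fin n × Fin ℓ → V, w = fun j => x (Sum.inr j.1, Fin.castLE hℓν j.2) := ⟨_, rfl⟩
      have hwi : Function.Injective w := by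
        intro a b hab
        rw [hw] at hab
        have h6 := hxi hab
        simp only [Prod.mk.injEq, Sum.inr.injEq] at h6
        exact Prod.ext h6.1 (Fin.castLE_injective hℓν h6.2)
      obtain ⟨Z2, hZ2⟩ : ∃ Z2, Z2 = Finset.univ.image w := ⟨_, rfl⟩
      have hZ2c : Z2.card = n * ℓ := by
        rw [hZ2, Finset.card_image_of_injective _ hwi, Finset.card_univ, Fintype.card_prod, Fintype.card_fin,
          Fintype.card_fin]
      obtain ⟨S', hS'⟩ : ∃ S', S' = S ∪ (J'ᶜ).image w := ⟨_, rfl⟩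
      have hS'c : S'.card < I'.card := by
        have h6 : S'.card ≤ S.card + J'ᶜ.card := by
          rw [hS']
          exact (Finset.card_union_le _ _).trans (Nat.add_le_add_left Finset.card_image_le _)
        have h7 : J'ᶜ.card + J'.card = n * ℓ := by
          rw [Finset.card_compl_add_card, Fintype.card_prod, Fintype.card_fin, Fintype.card_fin]
        omega
      have hMpos : 1 ≤ M.card := by
        by_contra hlt
        have : M.card = 0 := by omega
        rw [this, Nat.mul_zero] at hIM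
        omega
      obtain ⟨y1, hy1, y2, hy2, hj⟩ := hLk (min Z1.card Z2.card) (by
          rw [hZ1c, hZ2c]
          refine le_min (h1.trans (Nat.le_mul_of_pos_left _ hMpos)) h2)
        (by rw [hZ2c]; exact (min_le_right _ _).trans h3) Z1 (by
          intro v hv
          rw [hZ1] at hv
          obtain ⟨a, _, rfl⟩ := Finset.mem_image.1 hv
          exact hxB _) Z2 (by
          intro v hv
          rw [hZ2] at hv
          obtain ⟨a, _, rfl⟩ := Finset.mem_image.1 hv
          rw [hw]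
          exact hxB _) (min_le_left _ _) (min_le_right _ _) S' (by
          rw [hZ1c, hZ2c]
          refine lt_min ?_ ?_
          · calc q3 * S'.card < q3 * I'.card := Nat.mul_lt_mul_of_pos_left hS'c hq3
              _ ≤ q3 * (4 * τ * M.card) := Nat.mul_le_mul_left _ hIM
              _ = M.card * (q3 * (4 * τ)) := by ring
              _ ≤ M.card * ν := Nat.mul_le_mul_left _ h4
          · calc q3 * S'.card < q3 * I'.card := Nat.mul_lt_mul_of_pos_left hS'c hq3
              _ ≤ q3 * (2 * r ^ 2 * τ) := Nat.mul_le_mul_left _ hI'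
              _ ≤ n * ℓ := h5)
      obtain ⟨hy1Z, hy1S⟩ := Finset.mem_sdiff.1 hy1
      obtain ⟨hy2Z, hy2S⟩ := Finset.mem_sdiff.1 hy2
      rw [hZ1] at hy1Z
      obtain ⟨⟨p, a⟩, ha, rfl⟩ := Finset.mem_image.1 hy1Z
      have hp := (Finset.mem_product.1 ha).1
      rw [hM] at hp
      obtain ⟨q, hq, hqp⟩ := Finset.mem_image.1 hp
      rw [hZ2] at hy2Z
      obtain ⟨j, _, rfl⟩ := Finset.mem_image.1 hy2Z
      have hjJ : j ∈ J' := by
        by_contra hcon
        apply hy2S
        rw [hS']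
        exact Finset.mem_union_right _ (Finset.mem_image_of_mem _ (Finset.mem_compl.2 hcon))
      have hSS' : S ⊆ S' := by rw [hS']; exact Finset.subset_union_left
      refine ⟨q, hq, (Sum.inl p, a), ?_, j, hjJ, (Sum.inr j.1, Fin.castLE hℓν j.2), Finset.mem_singleton_self _,
        fun h => hy1S (hSS' h), fun h => hy2S (hSS' (by rw [hw]; exact h)), ?_⟩
      · refine Finset.mem_filter.2 ⟨Finset.mem_univ _, ?_⟩
        exact congrArg Sum.inl hqp.symm
      · rw [hw] at hj
        refine hj.mono ?_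
        apply Finset.insert_subset_insert
        apply Finset.insert_subset_insert
        exact Finset.sdiff_subset_sdiff (Finset.Subset.refl _) hSS')
  refine ⟨φ, fun q => (α q).2, E, hφ, ?_, hEd⟩
  intro q
  obtain ⟨h6, h7, h8, h9, h10, h11⟩ := hE q
  have h12 : α q = (Sum.inl (mu q.1 q.2.1), (α q).2) := Prod.ext (Finset.mem_filter.1 h6).2 rfl
  have h13 : β q = (Sum.inr (φ q).1, Fin.castLE hℓν (φ q).2) := Finset.mem_singleton.1 h7
  refine ⟨by rw [← h12]; exact h10, by rw [← h13]; exact h11, h9, ?_⟩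
  intro v hv
  rcases Finset.mem_union.1 (h8 hv) with h14 | h14
  · exact Or.inl h14
  · obtain ⟨⟨p, a⟩, hρ, hvρ⟩ := Finset.mem_biUnion.1 h14
    rcases (Finset.mem_filter.1 hρ).2 with ⟨p', hp'⟩ | ⟨p', hp', ha⟩
    · have hp'' : p = Sum.inl p' := hp'
      rw [hp''] at hvρ
      exact Or.inr (Or.inl ⟨p', a, hvρ⟩)
    · have hp'' : p = Sum.inr p' := hp'
      rw [hp''] at hvρ
      exact Or.inr (Or.inr ⟨p', a, hvρ, ha⟩)

/-- Step 2, one commodity: from the ends `o` to the ends `u`, through the roots with indices in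
`[b0, b0 + 2 * y)`. -/
theorem half_step2 {τ ν ℓ y n z0 k q : ℕ} {Pi : Type*} [Fintype Pi] [DecidableEq Pi] {B A : Finset V}
    (x : (Pi ⊕ Fin n) × Fin ν → V) (f : (Pi ⊕ Fin n) × Fin ν → Finset V)
    (hx : ∀ ρ, x ρ ∈ f ρ ∧ Conn G (f ρ)) (hxB : ∀ ρ, x ρ ∈ B)
    (hd : ∀ ρ ρ', ρ ≠ ρ' → Disjoint (f ρ) (f ρ')) (hA : ∀ ρ, Disjoint A (f ρ))
    (hLk : Lk G A B z0 k q) (hz : z0 ≤ y) (hk : n * y ≤ k) (hq : q * ℓ ≤ y) (hq1 : 1 ≤ q)
    {b0 : ℕ} (hb0 : b0 + 2 * y ≤ ν)
    (o u : Fin τ → Fin n) (ho : ∀ p, (Finset.univ.filter (fun s => o s = p)).card ≤ ℓ)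
    (hu : ∀ p, (Finset.univ.filter (fun s => u s = p)).card ≤ ℓ) :
    ∃ (σ : Fin τ → Fin τ) (α β : Fin τ → Fin ν) (E : Fin τ → Finset V), Function.Injective σ ∧
      (∀ s, b0 ≤ (α s : ℕ) ∧ b0 ≤ (β s : ℕ) ∧ Conn G (E s) ∧ f (Sum.inr (o s), α s) ⊆ E s ∧
        f (Sum.inr (u (σ s)), β s) ⊆ E s ∧
        ∀ v ∈ E s, v ∈ A ∨ ∃ p a, v ∈ f (Sum.inr p, a) ∧ b0 ≤ (a : ℕ) ∧ (a : ℕ) < b0 + 2 * y) ∧
      ∀ s s', s ≠ s' → Disjoint (E s) (E s') := by
  have hxi : Function.Injective x := by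
    intro ρ ρ' h
    by_contra hne
    exact Finset.disjoint_left.1 (hd ρ ρ' hne) (hx ρ).1 (h ▸ (hx ρ').1)
  -- the roots of the piece `p` with index in `[b0 + c, b0 + c + y)`
  obtain ⟨rt, hrt⟩ : ∃ rt : ∀ c : ℕ, c + y ≤ 2 * y → Fin n × Fin y → (Pi ⊕ Fin n) × Fin ν,
      ∀ c hc a, rt c hc a = (Sum.inr a.1, ⟨b0 + c + a.2, by have := a.2.2; omega⟩) :=
    ⟨fun c hc a => (Sum.inr a.1, ⟨b0 + c + a.2, by have := a.2.2; omega⟩), fun _ _ _ => rfl⟩
  have hrti : ∀ c hc, Function.Injective (rt c hc) := by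
    intro c hc a b hab
    rw [hrt, hrt] at hab
    simp only [Prod.mk.injEq, Sum.inr.injEq, Fin.mk.injEq] at hab
    refine Prod.ext hab.1 (Fin.ext ?_)
    omega
  have hc1 : 0 + y ≤ 2 * y := by omega
  have hc2 : y + y ≤ 2 * y := by omega
  have hcount : ∀ (w : Fin τ → Fin n), (∀ p, (Finset.univ.filter (fun s => w s = p)).card ≤ ℓ) →
      ∀ I' : Finset (Fin τ), I'.card ≤ ℓ * (I'.image w).card := by
    intro w hw I'
    apply Finset.card_le_mul_card_image
    intro p _
    exact (Finset.card_le_card (Finset.filter_subset_filter _ (Finset.subset_univ I'))).trans (hw p)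
  have hZc : ∀ c hc (M : Finset (Fin n)),
      ((M ×ˢ (Finset.univ : Finset (Fin y))).image (fun a => x (rt c hc a))).card = M.card * y := by
    intro c hc M
    have hinj : Function.Injective (fun a => x (rt c hc a)) := hxi.comp (hrti c hc)
    rw [Finset.card_image_of_injective _ hinj, Finset.card_product, Finset.card_univ, Fintype.card_fin]
  obtain ⟨σ, α, β, E, hσ, hE, hEd⟩ := group_link (G := G) (I := Fin τ) (J := Fin τ) x f hx hd A hA
    (Finset.univ.filter (fun ρ => ∃ p, ρ.1 = Sum.inr p ∧ b0 ≤ (ρ.2 : ℕ) ∧ (ρ.2 : ℕ) < b0 + 2 * y))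
    (fun s => Finset.univ.image (fun a : Fin y => rt 0 hc1 (o s, a)))
    (fun s => Finset.univ.image (fun a : Fin y => rt y hc2 (u s, a)))
    (by
      intro s ρ hρ
      obtain ⟨a, _, rfl⟩ := Finset.mem_image.1 hρ
      rw [hrt]
      refine Finset.mem_filter.2 ⟨Finset.mem_univ _, _, rfl, ?_, ?_⟩
      · show b0 ≤ b0 + 0 + (a : ℕ)
        omega
      · show b0 + 0 + (a : ℕ) < b0 + 2 * y
        have := a.2
        omega)
    (by
      intro s ρ hρ
      obtain ⟨a, _, rfl⟩ := Finset.mem_image.1 hρ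
      rw [hrt]
      refine Finset.mem_filter.2 ⟨Finset.mem_univ _, _, rfl, ?_, ?_⟩
      · show b0 ≤ b0 + y + (a : ℕ)
        omega
      · show b0 + y + (a : ℕ) < b0 + 2 * y
        have := a.2
        omega)
    (by
      intro I' J' S hS
      rw [Fintype.card_fin] at hS
      have hI' : I'.card ≤ τ := by
        have := Finset.card_le_univ I'
        rwa [Fintype.card_fin] at this
      have hJ' : J'.card ≤ τ := by
        have := Finset.card_le_univ J'
        rwa [Fintype.card_fin] at this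
      have hI1 := hcount o ho I'
      have hJ1 := hcount u hu J'
      obtain ⟨M1, hM1⟩ : ∃ M1, M1 = I'.image o := ⟨_, rfl⟩
      obtain ⟨M2, hM2⟩ : ∃ M2, M2 = J'.image u := ⟨_, rfl⟩
      rw [← hM1] at hI1
      rw [← hM2] at hJ1
      have hM1p : 1 ≤ M1.card := by
        by_contra hlt
        have : M1.card = 0 := by omega
        rw [this, Nat.mul_zero] at hI1
        omega
      have hM2p : 1 ≤ M2.card := by
        by_contra hlt
        have : M2.card = 0 := by omega
        rw [this, Nat.mul_zero] at hJ1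
        omega
      have hM1n : M1.card ≤ n := by
        have := Finset.card_le_univ M1
        rwa [Fintype.card_fin] at this
      have hS1 : ∀ (M : Finset (Fin n)) (I : ℕ), I ≤ ℓ * M.card → S.card < I → q * S.card < M.card * y := by
        intro M I h6 h7
        calc q * S.card < q * I := Nat.mul_lt_mul_of_pos_left h7 hq1
          _ ≤ q * (ℓ * M.card) := Nat.mul_le_mul_left _ h6
          _ = M.card * (q * ℓ) := by ring
          _ ≤ M.card * y := Nat.mul_le_mul_left _ hq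
      obtain ⟨y1, hy1, y2, hy2, hj⟩ := hLk (min (M1.card * y) (M2.card * y))
        (le_min (hz.trans (Nat.le_mul_of_pos_left _ hM1p)) (hz.trans (Nat.le_mul_of_pos_left _ hM2p)))
        ((min_le_left _ _).trans ((Nat.mul_le_mul_right _ hM1n).trans hk))
        ((M1 ×ˢ (Finset.univ : Finset (Fin y))).image (fun a => x (rt 0 hc1 a)))
        (by
          intro v hv
          obtain ⟨a, _, rfl⟩ := Finset.mem_image.1 hv
          exact hxB _)
        ((M2 ×ˢ (Finset.univ : Finset (Fin y))).image (fun a => x (rt y hc2 a)))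
        (by
          intro v hv
          obtain ⟨a, _, rfl⟩ := Finset.mem_image.1 hv
          exact hxB _)
        (by rw [hZc]; exact min_le_left _ _) (by rw [hZc]; exact min_le_right _ _) S
        (lt_min (hS1 M1 I'.card hI1 (by omega)) (hS1 M2 J'.card hJ1 (by omega)))
      obtain ⟨hy1Z, hy1S⟩ := Finset.mem_sdiff.1 hy1
      obtain ⟨hy2Z, hy2S⟩ := Finset.mem_sdiff.1 hy2
      obtain ⟨⟨p, a⟩, ha, rfl⟩ := Finset.mem_image.1 hy1Z
      obtain ⟨⟨p', a'⟩, ha', rfl⟩ := Finset.mem_image.1 hy2Z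
      have hp := (Finset.mem_product.1 ha).1
      have hp' := (Finset.mem_product.1 ha').1
      rw [hM1] at hp
      rw [hM2] at hp'
      obtain ⟨s, hs, hsp⟩ := Finset.mem_image.1 hp
      obtain ⟨s', hs', hsp'⟩ := Finset.mem_image.1 hp'
      have hsp1 : o s = p := hsp
      have hsp1' : u s' = p' := hsp'
      refine ⟨s, hs, rt 0 hc1 (p, a), ?_, s', hs', rt y hc2 (p', a'), ?_, hy1S, hy2S, hj⟩
      · rw [← hsp1]
        exact Finset.mem_image_of_mem (fun a : Fin y => rt 0 hc1 (o s, a)) (Finset.mem_univ a)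
      · rw [← hsp1']
        exact Finset.mem_image_of_mem (fun a : Fin y => rt y hc2 (u s', a)) (Finset.mem_univ a'))
  refine ⟨σ, fun s => (α s).2, fun s => (β s).2, E, hσ, ?_, hEd⟩
  intro s
  obtain ⟨h6, h7, h8, h9, h10, h11⟩ := hE s
  obtain ⟨a, _, ha⟩ := Finset.mem_image.1 h6
  obtain ⟨b, _, hb⟩ := Finset.mem_image.1 h7
  rw [hrt] at ha hb
  refine ⟨?_, ?_, h9, ?_, ?_, ?_⟩
  · show b0 ≤ ((α s).2 : ℕ)
    rw [← ha]
    show b0 ≤ b0 + 0 + (a : ℕ)
    omega
  · show b0 ≤ ((β s).2 : ℕ)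
    rw [← hb]
    show b0 ≤ b0 + y + (b : ℕ)
    omega
  · have h12 : α s = (Sum.inr (o s), (α s).2) := by rw [← ha]
    rw [← h12]
    exact h10
  · have h12 : β s = (Sum.inr (u (σ s)), (β s).2) := by rw [← hb]
    rw [← h12]
    exact h11
  · intro v hv
    rcases Finset.mem_union.1 (h8 hv) with h14 | h14
    · exact Or.inl h14
    · obtain ⟨⟨p, a⟩, hρ, hvρ⟩ := Finset.mem_biUnion.1 h14
      obtain ⟨p', hp', h15, h16⟩ := (Finset.mem_filter.1 hρ).2
      have hp'' : p = Sum.inr p' := hp'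
      rw [hp''] at hvρ
      exact Or.inr ⟨p', a, hvρ, h15, h16⟩

end HD
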